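import Mathlib

/-!
# Directed cuts in acyclic digraphs: definitions shared by all files
-/

set_option autoImplicit false

namespace Pool.Agent.LibHelper37.Mac

open Finset

/-- A weighted digraph with vertex set `V`: the arcs, and a weight `w u v ≥ 0` for each arc `(u, v)`
(by convention `w u v = 0` if `(u, v)` is not an arc). -/
structure WDigraph (V : Type) where
  Arc : V → V → Prop
  w : V → V → ℝ
  w_nonneg : ∀ u v, 0 ≤ w u v
  w_eq_zero : ∀ u v, ¬ Arc u v → w u v = 0

namespace WDigraph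

variable {V : Type} (D : WDigraph V)

/-- There is no directed cycle. -/
def Acyclic : Prop := ∀ v, ¬ Relation.TransGen D.Arc v v

/-- `l` is the sequence of vertices of a directed path (at least one vertex, no vertex repeated,
consecutive vertices joined by arcs); the order of the path is `l.length`. -/
def IsPath (l : List V) : Prop := l ≠ [] ∧ l.Nodup ∧ l.IsChain D.Arc

/-- The maximum path order of `D` is `n`. -/
def MaxPathOrder (n : ℕ) : Prop := IsGreatest {k | ∃ l, D.IsPath l ∧ l.length = k} n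

/-- The total weight `w(D)`. -/
def total [Fintype V] : ℝ := ∑ u, ∑ v, D.w u v

/-- The weight of the directed cut `(X, V ∖ X)`: the total weight of the arcs with tail in `X` and
head outside `X`. -/
def cut [Fintype V] [DecidableEq V] (X : Finset V) : ℝ := ∑ u ∈ X, ∑ v ∈ Xᶜ, D.w u v

/-- `mac(D)`, the largest weight of a directed cut. -/
def mac [Fintype V] [DecidableEq V] : ℝ :=
  (Finset.univ : Finset (Finset V)).sup' ⟨∅, Finset.mem_univ _⟩ D.cut

end WDigraph

/-- The set of all `c ≥ 0` such that `mac(D) ≥ c w(D)` for every weighted acyclic digraph `D` of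
maximum path order `ν`. -/
def cSet (ν : ℕ) : Set ℝ :=
  {c | 0 ≤ c ∧ ∀ (V : Type) [Fintype V] [DecidableEq V] (D : WDigraph V), D.Acyclic →
    D.MaxPathOrder ν → c * D.total ≤ D.mac}

/-- The constant `c_ν`. -/
noncomputable def cConst (ν : ℕ) : ℝ := sSup (cSet ν)

/-- The sum over `ω < m` of the autocorrelations at lag `t` of the finite sequences
`(c ω 0, …, c ω (n - 1))`. -/
def autoc (m n : ℕ) (c : ℕ → ℕ → ℝ) (t : ℕ) : ℝ :=
  ∑ ω ∈ range m, ∑ k ∈ range (n - t), c ω k * c ω (k + t)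

/-- `Design κ ρ`: some sum `γ` of autocorrelations of finitely many finite real sequences satisfies
`γ 0 ≤ 1 - κ` and `γ t ≤ ρ t - κ` for all `t ≥ 1`. -/
def Design (κ ρ : ℝ) : Prop :=
  0 < κ ∧ ∃ (m n : ℕ) (c : ℕ → ℕ → ℝ), autoc m n c 0 ≤ 1 - κ ∧
    ∀ t : ℕ, 1 ≤ t → autoc m n c t ≤ ρ * t - κ

/-- The extremal constant `β⋆`. -/
noncomputable def betaStar : ℝ := sInf {β | ∃ κ ρ, Design κ ρ ∧ β = ρ / κ ^ 2}

/-- mean of the `i`-th coordinate of a random sign sequence -/
def mean {ι : Type} [Fintype ι] (p : ι → ℝ) (s : ι → ℕ → ℝ) (i : ℕ) : ℝ := ∑ ω, p ω * s ω i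

/-- second mixed moment -/
def cor {ι : Type} [Fintype ι] (p : ι → ℝ) (s : ι → ℕ → ℝ) (i j : ℕ) : ℝ :=
  ∑ ω, p ω * (s ω i * s ω j)

/-- a random sign sequence with `E s_i s_j ≤ E s_i - E s_j - η` for `i < j < ν` -/
structure IsProc {ι : Type} [Fintype ι] (p : ι → ℝ) (s : ι → ℕ → ℝ) (ν : ℕ) (η : ℝ) : Prop where
  p_nonneg : ∀ ω, 0 ≤ p ω
  p_sum : ∑ ω, p ω = 1
  sign : ∀ ω i, s ω i = 1 ∨ s ω i = -1
  ineq : ∀ i j, i < j → j < ν → cor p s i j ≤ mean p s i - mean p s j - η

end Pool.Agent.LibHelper37.Mac
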