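import Mathlib

set_option autoImplicit false

namespace Pool.Agent.LibHelper37.Mac

open Finset Real

/-- the antiderivative `∫₀ˣ dt / (1 + t²)²` -/
noncomputable def Gf (x : ℝ) : ℝ := (x / (1 + x ^ 2) + arctan x) / 2

theorem hasDerivAt_Gf (x : ℝ) : HasDerivAt Gf (1 / (1 + x ^ 2) ^ 2) x := by
  have hx : (1 + x ^ 2 : ℝ) ≠ 0 := by positivity
  have h1 : HasDerivAt (fun y : ℝ => y / (1 + y ^ 2))
      ((1 * (1 + x ^ 2) - x * (2 * x)) / (1 + x ^ 2) ^ 2) x := by
    have h2 : HasDerivAt (fun y : ℝ => 1 + y ^ 2) (2 * x) x := by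
      have := (hasDerivAt_pow 2 x).const_add 1
      simpa using this
    exact (hasDerivAt_id x).div h2 hx
  have h3 := (h1.add (hasDerivAt_arctan x)).div_const 2
  have h4 : ((1 * (1 + x ^ 2) - x * (2 * x)) / (1 + x ^ 2) ^ 2 + 1 / (1 + x ^ 2)) / 2
      = 1 / (1 + x ^ 2) ^ 2 := by
    field_simp
    ring
  rw [h4] at h3
  exact h3

theorem Gf_mvt {l u : ℝ} (h : l < u) :
    ∃ ξ ∈ Set.Ioo l u, Gf u - Gf l = (u - l) / (1 + ξ ^ 2) ^ 2 := by
  have hc : ContinuousOn Gf (Set.Icc l u) := fun x _ => (hasDerivAt_Gf x).continuousAt.continuousWithinAt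
  obtain ⟨ξ, hξ, h1⟩ := exists_hasDerivAt_eq_slope Gf (fun x => 1 / (1 + x ^ 2) ^ 2) h hc
    (fun x _ => hasDerivAt_Gf x)
  refine ⟨ξ, hξ, ?_⟩
  have h2 : u - l ≠ 0 := by linarith
  field_simp at h1
  have h3 : (1 + ξ ^ 2) ^ 2 ≠ 0 := by positivity
  field_simp
  linarith

theorem Gf_incr {l u y : ℝ} (h : l ≤ u) (hl : |l| ≤ y) (hu : |u| ≤ y) :
    (u - l) / (1 + y ^ 2) ^ 2 ≤ Gf u - Gf l := by
  rcases h.eq_or_lt with h0 | h0
  · subst h0; simp
  · obtain ⟨ξ, hξ, h1⟩ := Gf_mvt h0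
    rw [h1]
    have h2 : ξ ^ 2 ≤ y ^ 2 := by
      apply sq_le_sq'
      · have := neg_abs_le l
        linarith [hξ.1]
      · have := le_abs_self u
        linarith [hξ.2]
    gcongr

theorem Gf_mono : Monotone Gf := by
  intro l u h
  have := Gf_incr h (y := max |l| |u|) (le_max_left _ _) (le_max_right _ _)
  have h2 : 0 ≤ (u - l) / (1 + (max |l| |u|) ^ 2) ^ 2 := by
    apply div_nonneg (by linarith) (by positivity)
  linarith

/-- upper bound for the increment on the positive side -/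
theorem Gf_incr_le {l u : ℝ} (h : l ≤ u) (hl : 0 ≤ l) :
    Gf u - Gf l ≤ (u - l) / (1 + l ^ 2) ^ 2 := by
  rcases h.eq_or_lt with h0 | h0
  · subst h0; simp
  · obtain ⟨ξ, hξ, h1⟩ := Gf_mvt h0
    rw [h1]
    have h2 : l ^ 2 ≤ ξ ^ 2 := by
      apply pow_le_pow_left₀ hl hξ.1.le
    gcongr

theorem tendsto_Gf : Filter.Tendsto Gf Filter.atTop (nhds (π / 4)) := by
  have h1 : Filter.Tendsto (fun x : ℝ => x / (1 + x ^ 2)) Filter.atTop (nhds 0) := by
    have h2 : Filter.Tendsto (fun x : ℝ => x⁻¹) Filter.atTop (nhds 0) := tendsto_inv_atTop_zero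
    refine squeeze_zero' ?_ ?_ h2
    · filter_upwards [Filter.eventually_gt_atTop 0] with x hx
      positivity
    · filter_upwards [Filter.eventually_gt_atTop 0] with x hx
      rw [inv_eq_one_div, div_le_div_iff₀ (by positivity) hx]
      nlinarith
  have h3 := (h1.add ((tendsto_arctan_atTop).mono_right nhdsWithin_le_nhds)).div_const 2
  have h4 : (0 + π / 2) / 2 = π / 4 := by ring
  rw [h4] at h3
  exact h3

theorem Gf_le (x : ℝ) : Gf x ≤ π / 4 := Gf_mono.ge_of_tendsto tendsto_Gf x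

theorem Gf_neg (x : ℝ) : Gf (-x) = -Gf x := by
  unfold Gf
  rw [arctan_neg]
  ring

theorem neg_le_Gf (x : ℝ) : -(π / 4) ≤ Gf x := by
  have := Gf_le (-x)
  rw [Gf_neg] at this
  linarith

theorem Gf_zero : Gf 0 = 0 := by simp [Gf]

theorem Gf_continuous : Continuous Gf :=
  continuous_iff_continuousAt.2 fun x => (hasDerivAt_Gf x).continuousAt

end Pool.Agent.LibHelper37.Mac
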