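import Mathlib
import Pool.Agent.Lib_helper37.Mac.Gfun

set_option autoImplicit false

namespace Pool.Agent.LibHelper37.Mac

open Finset Real

/-- a system of `T` blocks: lengths `ℓ`, levels `a` -/
structure BSys (η S q r : ℝ) (γ : ℕ → ℝ) (T : ℕ) (ℓ : ℕ → ℕ) (a : ℕ → ℝ) (lo hi W : ℝ) :
    Prop where
  two : ∀ b < T, 2 ≤ ℓ b
  small : ∀ b < T, |a b| + S / √(ℓ b) ≤ 1
  same : ∀ b < T, η ≤ 1 / ℓ b - (ℓ b * a b ^ 2 + γ 0) / (ℓ b - 1)
  cross : ∀ b b', b < b' → b' < T →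
    a b * a b' + γ (b' - b) / (√(ℓ b) * √(ℓ b')) ≤ a b - a b' - η
  low : ∀ b < T, lo ≤ a b
  high : ∀ b < T, a b ≤ hi
  inv : ∀ b < T, 1 / √(ℓ b) ≤ q
  abs : ∀ b < T, |a b| ≤ r
  wt : W ≤ ∑ b ∈ range T, (ℓ b : ℝ)

theorem BSys.append {η S q r G : ℝ} {γ : ℕ → ℝ} (hG : ∀ t, |γ t| ≤ G)
    {T₁ T₂ : ℕ} {ℓ₁ ℓ₂ : ℕ → ℕ} {a₁ a₂ : ℕ → ℝ} {lo₁ hi₁ W₁ lo₂ hi₂ W₂ : ℝ}
    (h₁ : BSys η S q r γ T₁ ℓ₁ a₁ lo₁ hi₁ W₁) (h₂ : BSys η S q r γ T₂ ℓ₂ a₂ lo₂ hi₂ W₂)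
    (hq : 0 ≤ q) (hr : 0 ≤ r) (hJ : η + r ^ 2 + G * q ^ 2 ≤ lo₁ - hi₂) (hlo : lo₂ ≤ lo₁)
    (hhi : hi₂ ≤ hi₁) :
    BSys η S q r γ (T₁ + T₂) (fun b => if b < T₁ then ℓ₁ b else ℓ₂ (b - T₁))
      (fun b => if b < T₁ then a₁ b else a₂ (b - T₁)) lo₂ hi₁ (W₁ + W₂) := by
  have hG0 : 0 ≤ G := le_trans (abs_nonneg _) (hG 0)
  refine ⟨?_, ?_, ?_, ?_, ?_, ?_, ?_, ?_, ?_⟩
  · intro b hb
    by_cases h : b < T₁
    · simp only [if_pos h]; exact h₁.two b h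
    · simp only [if_neg h]; exact h₂.two _ (by omega)
  · intro b hb
    by_cases h : b < T₁
    · simp only [if_pos h]; exact h₁.small b h
    · simp only [if_neg h]; exact h₂.small _ (by omega)
  · intro b hb
    by_cases h : b < T₁
    · simp only [if_pos h]; exact h₁.same b h
    · simp only [if_neg h]; exact h₂.same _ (by omega)
  · intro b b' hbb hb'
    by_cases h' : b' < T₁
    · have h : b < T₁ := by omega
      simp only [if_pos h, if_pos h']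
      exact h₁.cross b b' hbb h'
    · by_cases h : b < T₁
      · simp only [if_pos h, if_neg h']
        have e1 := h₁.low b h
        have e2 := h₂.high (b' - T₁) (by omega)
        have e3 : a₁ b * a₂ (b' - T₁) ≤ r ^ 2 := by
          refine le_trans (le_abs_self _) ?_
          rw [abs_mul, sq]
          exact mul_le_mul (h₁.abs b h) (h₂.abs _ (by omega)) (abs_nonneg _) hr
        have e4 : γ (b' - b) / (√(ℓ₁ b) * √(ℓ₂ (b' - T₁))) ≤ G * q ^ 2 := by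
          have e5 : γ (b' - b) / (√(ℓ₁ b) * √(ℓ₂ (b' - T₁))) =
              γ (b' - b) * ((1 / √(ℓ₁ b)) * (1 / √(ℓ₂ (b' - T₁)))) := by
            rw [div_mul_div_comm, one_mul, mul_one_div]
          rw [e5]
          have e6 : (1 / √(ℓ₁ b)) * (1 / √(ℓ₂ (b' - T₁))) ≤ q ^ 2 := by
            rw [sq]
            exact mul_le_mul (h₁.inv b h) (h₂.inv _ (by omega)) (by positivity) hq
          have e7 : γ (b' - b) ≤ G := le_trans (le_abs_self _) (hG _)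
          have e8 : 0 ≤ (1 / √(ℓ₁ b : ℝ)) * (1 / √(ℓ₂ (b' - T₁) : ℝ)) := by positivity
          exact mul_le_mul e7 e6 e8 hG0
        linarith
      · simp only [if_neg h, if_neg h']
        have := h₂.cross (b - T₁) (b' - T₁) (by omega) (by omega)
        have e : b' - T₁ - (b - T₁) = b' - b := by omega
        rw [e] at this
        exact this
  · intro b hb
    by_cases h : b < T₁
    · simp only [if_pos h]; exact le_trans hlo (h₁.low b h)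
    · simp only [if_neg h]; exact h₂.low _ (by omega)
  · intro b hb
    by_cases h : b < T₁
    · simp only [if_pos h]; exact h₁.high b h
    · simp only [if_neg h]; exact le_trans (h₂.high _ (by omega)) hhi
  · intro b hb
    by_cases h : b < T₁
    · simp only [if_pos h]; exact h₁.inv b h
    · simp only [if_neg h]; exact h₂.inv _ (by omega)
  · intro b hb
    by_cases h : b < T₁
    · simp only [if_pos h]; exact h₁.abs b h
    · simp only [if_neg h]; exact h₂.abs _ (by omega)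
  · rw [Finset.sum_range_add]
    refine add_le_add (le_trans h₁.wt (le_of_eq ?_)) (le_trans h₂.wt (le_of_eq ?_))
    · refine Finset.sum_congr rfl fun b hb => ?_
      rw [if_pos (Finset.mem_range.1 hb)]
    · refine Finset.sum_congr rfl fun b _ => ?_
      rw [if_neg (by omega), Nat.add_sub_cancel_left]

/-- one epoch of equal blocks -/
theorem single_epoch {κ ρ θ v J A S q : ℝ} {γ : ℕ → ℝ} (hκ : 0 < κ) (hρ : 0 < ρ)
    (hθ : 0 < θ) (hθ1 : θ < 1) (hv : 0 < v) (hJ : 0 ≤ J) (hq : 0 ≤ q)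
    (hγ0 : γ 0 ≤ 1 - κ) (hγ : ∀ t : ℕ, 1 ≤ t → γ t ≤ ρ * t - κ) (hS : 0 ≤ S)
    (hqv : 2 * (v ^ 2 * (1 + A ^ 2)) = q ^ 2 * (κ * (1 - θ))) (hq1 : q ^ 2 ≤ κ * θ)
    (hq2 : q ^ 2 ≤ 1 / 2) (hsm : A * v + S * q ≤ 1) (xl xh : ℝ)
    (hxl : |xl| ≤ A) (hxh : |xh| ≤ A) (hJx : J ≤ (xh - xl) * v) :
    ∃ (T : ℕ) (ℓ : ℕ → ℕ) (a : ℕ → ℝ), BSys (v ^ 2) S q (A * v) γ T ℓ a (xl * v) (xh * v - J)
      (((xh - xl) * v - J) / ρ * (κ * (1 - θ) / (v ^ 2 * (1 + max (xl ^ 2) (xh ^ 2))) - 1) ^ 2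
        - κ * (1 - θ) / (v ^ 2 * (1 + max (xl ^ 2) (xh ^ 2)))) := by
  have h1θ : 0 < 1 - θ := by linarith
  have hA0 : 0 ≤ A := le_trans (abs_nonneg _) hxl
  set m := max (xl ^ 2) (xh ^ 2) with hm
  have hm0 : 0 ≤ m := le_trans (sq_nonneg _) (le_max_left _ _)
  have hmA : m ≤ A ^ 2 := by
    apply max_le
    · rw [← sq_abs]; exact pow_le_pow_left₀ (abs_nonneg _) hxl 2
    · rw [← sq_abs]; exact pow_le_pow_left₀ (abs_nonneg _) hxh 2
  set ε := v ^ 2 * (1 + m) with hε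
  have hε0 : 0 < ε := by positivity
  have hεA : ε ≤ v ^ 2 * (1 + A ^ 2) := by rw [hε]; gcongr
  set y := κ * (1 - θ) / ε with hy
  have hy0 : 0 < y := by positivity
  have hyq : 2 ≤ y * q ^ 2 := by
    rw [hy, div_mul_eq_mul_div, le_div_iff₀ hε0]
    nlinarith
  have hq2pos : 0 < q ^ 2 := by
    by_contra hcon
    push Not at hcon
    have : q ^ 2 = 0 := le_antisymm hcon (sq_nonneg _)
    rw [this] at hyq
    linarith
  have hy4 : 4 ≤ y := by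
    by_contra hcon
    push Not at hcon
    nlinarith
  set ℓ := ⌊y⌋₊ with hℓ
  have hℓy : (ℓ : ℝ) ≤ y := Nat.floor_le hy0.le
  have hyℓ : y - 1 < ℓ := by
    have := Nat.lt_floor_add_one y
    linarith
  have hℓ2 : 2 ≤ ℓ := by
    rw [hℓ]
    apply Nat.le_floor
    push_cast
    linarith
  have hℓ2' : (2 : ℝ) ≤ ℓ := by exact_mod_cast hℓ2
  have hℓ0 : (0 : ℝ) < ℓ := by linarith
  have hℓq : 1 ≤ ℓ * q ^ 2 := by
    have : y / 2 ≤ ℓ := by linarith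
    nlinarith
  have hsq : 1 / √(ℓ : ℝ) ≤ q := by
    rw [div_le_iff₀ (Real.sqrt_pos.2 hℓ0)]
    rw [← Real.sqrt_sq hq, ← Real.sqrt_mul (sq_nonneg _), ← Real.sqrt_one]
    apply Real.sqrt_le_sqrt
    linarith
  have hℓinv : 1 / (ℓ : ℝ) ≤ q ^ 2 := by
    rw [div_le_iff₀ hℓ0]; linarith
  have hℓε : ℓ * ε ≤ κ * (1 - θ) := by
    calc ℓ * ε ≤ y * ε := by gcongr
      _ = κ * (1 - θ) := by rw [hy]; field_simp
  set H := (xh - xl) * v - J with hH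
  have hH0 : 0 ≤ H := by linarith
  set n := ⌊H * ℓ / ρ⌋₊ with hn
  have hnle : (n : ℝ) ≤ H * ℓ / ρ := Nat.floor_le (by positivity)
  have hnge : H * ℓ / ρ - 1 < n := by
    have := Nat.lt_floor_add_one (H * ℓ / ρ)
    linarith
  have hlev : ∀ b : ℕ, b < n → xl * v ≤ xh * v - J - b * ρ / ℓ := by
    intro b hb
    have h1 : (b : ℝ) ≤ n := by exact_mod_cast hb.le
    have h2 : (b : ℝ) * ρ / ℓ ≤ H := by
      rw [div_le_iff₀ hℓ0]
      calc (b : ℝ) * ρ ≤ n * ρ := by gcongr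
        _ ≤ (H * ℓ / ρ) * ρ := by gcongr
        _ = H * ℓ := by field_simp
    rw [hH] at h2
    linarith
  have hlev2 : ∀ b : ℕ, xh * v - J - b * ρ / ℓ ≤ xh * v - J := by
    intro b
    have : 0 ≤ (b : ℝ) * ρ / ℓ := by positivity
    linarith
  have hprod : ∀ b c : ℕ, b < n → c < n →
      (xh * v - J - b * ρ / ℓ) * (xh * v - J - c * ρ / ℓ) ≤ v ^ 2 * m := by
    intro b c hb hc
    have key : ∀ x : ℝ, xl * v ≤ x → x ≤ xh * v → x ^ 2 ≤ v ^ 2 * m := by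
      intro x h1 h2
      rcases le_total 0 x with h0 | h0
      · have : x ^ 2 ≤ (xh * v) ^ 2 := pow_le_pow_left₀ h0 h2 2
        have h3 : xh ^ 2 ≤ m := le_max_right _ _
        calc x ^ 2 ≤ (xh * v) ^ 2 := this
          _ = v ^ 2 * xh ^ 2 := by ring
          _ ≤ v ^ 2 * m := by gcongr
      · have : x ^ 2 ≤ (xl * v) ^ 2 := by nlinarith
        have h3 : xl ^ 2 ≤ m := le_max_left _ _
        calc x ^ 2 ≤ (xl * v) ^ 2 := this
          _ = v ^ 2 * xl ^ 2 := by ring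
          _ ≤ v ^ 2 * m := by gcongr
    have h1 := key _ (hlev b hb) (by linarith [hlev2 b])
    have h2 := key _ (hlev c hc) (by linarith [hlev2 c])
    nlinarith [sq_nonneg ((xh * v - J - b * ρ / ℓ) - (xh * v - J - c * ρ / ℓ))]
  have habs : ∀ b : ℕ, b < n → |xh * v - J - b * ρ / ℓ| ≤ A * v := by
    intro b hb
    rw [abs_le]
    constructor
    · have h1 := hlev b hb
      have h2 := (abs_le.1 hxl).1
      nlinarith
    · have h1 := hlev2 b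
      have h2 := (abs_le.1 hxh).2
      nlinarith
  refine ⟨n, fun _ => ℓ, fun b => xh * v - J - b * ρ / ℓ, ?_, ?_, ?_, ?_, ?_, ?_, ?_, ?_, ?_⟩
  · intro b _; exact hℓ2
  · intro b hb
    have h1 := habs b hb
    have h2 : S / √(ℓ : ℝ) ≤ S * q := by
      rw [div_eq_mul_one_div]
      gcongr
    linarith
  · intro b hb
    have h1 := hprod b b hb hb
    show v ^ 2 ≤ 1 / (ℓ : ℝ) - (ℓ * (xh * v - J - b * ρ / ℓ) ^ 2 + γ 0) / (ℓ - 1)
    have hℓ1 : (0 : ℝ) < ℓ - 1 := by linarith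
    have h2 : (ℓ * (xh * v - J - b * ρ / ℓ) ^ 2 + γ 0) / (ℓ - 1) ≤ 1 / (ℓ : ℝ) - v ^ 2 := by
      rw [div_le_iff₀ hℓ1]
      have h3 : (1 / (ℓ : ℝ) - v ^ 2) * (ℓ - 1) = 1 - 1 / ℓ - v ^ 2 * (ℓ - 1) := by
        field_simp
      rw [h3]
      have h4 : ℓ * (xh * v - J - b * ρ / ℓ) ^ 2 ≤ ℓ * (v ^ 2 * m) := by
        rw [sq]; gcongr
      have h5 : ℓ * (v ^ 2 * m) + v ^ 2 * ℓ = ℓ * ε := by rw [hε]; ring
      have h6 : 0 < v ^ 2 := by positivity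
      nlinarith
    linarith
  · intro b b' hbb hb'
    show (xh * v - J - b * ρ / ℓ) * (xh * v - J - b' * ρ / ℓ) +
      γ (b' - b) / (√(ℓ : ℝ) * √(ℓ : ℝ)) ≤
      (xh * v - J - b * ρ / ℓ) - (xh * v - J - b' * ρ / ℓ) - v ^ 2
    rw [Real.mul_self_sqrt hℓ0.le]
    have h1 := hprod b b' (by omega) hb'
    have h2 := hγ (b' - b) (by omega)
    rw [Nat.cast_sub hbb.le] at h2
    have h3 : γ (b' - b) / ℓ ≤ (ρ * (b' - b) - κ) / ℓ := by gcongr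
    have h4 : (ρ * (b' - b) - κ) / ℓ = (xh * v - J - b * ρ / ℓ) - (xh * v - J - b' * ρ / ℓ)
        - κ / ℓ := by
      field_simp
      ring
    have h5 : v ^ 2 * m + v ^ 2 ≤ κ / ℓ := by
      rw [le_div_iff₀ hℓ0]
      have : (v ^ 2 * m + v ^ 2) * ℓ = ℓ * ε := by rw [hε]; ring
      rw [this]
      nlinarith
    linarith
  · intro b hb; exact hlev b hb
  · intro b _; exact hlev2 b
  · intro b _; exact hsq
  · intro b hb; exact habs b hb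
  · rw [Finset.sum_const, Finset.card_range, nsmul_eq_mul]
    have h1 : (H * ℓ / ρ - 1) * ℓ ≤ n * ℓ := by gcongr
    refine le_trans ?_ h1
    have h2 : (H * ℓ / ρ - 1) * ℓ = H / ρ * ℓ ^ 2 - ℓ := by field_simp
    rw [h2]
    have h3 : (y - 1) ^ 2 ≤ (ℓ : ℝ) ^ 2 := pow_le_pow_left₀ (by linarith) hyℓ.le 2
    have h4 : H / ρ * (y - 1) ^ 2 ≤ H / ρ * (ℓ : ℝ) ^ 2 := by gcongr
    linarith

/-- all epochs, on a grid -/
theorem all_epochs {κ ρ θ v J A S q G : ℝ} {γ : ℕ → ℝ} (hκ : 0 < κ) (hρ : 0 < ρ)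
    (hθ : 0 < θ) (hθ1 : θ < 1) (hv : 0 < v) (hJ : 0 ≤ J) (hq : 0 ≤ q)
    (hγ0 : γ 0 ≤ 1 - κ) (hγ : ∀ t : ℕ, 1 ≤ t → γ t ≤ ρ * t - κ) (hS : 0 ≤ S)
    (hG : ∀ t, |γ t| ≤ G)
    (hqv : 2 * (v ^ 2 * (1 + A ^ 2)) = q ^ 2 * (κ * (1 - θ))) (hq1 : q ^ 2 ≤ κ * θ)
    (hq2 : q ^ 2 ≤ 1 / 2) (hsm : A * v + S * q ≤ 1)
    (hJ2 : v ^ 2 + (A * v) ^ 2 + G * q ^ 2 ≤ J) (x : ℕ → ℝ) (h : ℝ)
    (hx : ∀ k, x k - x (k + 1) = h) (hJx : J ≤ h * v) (N : ℕ)
    (hxN : ∀ k ≤ N, |x k| ≤ A) :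
    ∃ (T : ℕ) (ℓ : ℕ → ℕ) (a : ℕ → ℝ), BSys (v ^ 2) S q (A * v) γ T ℓ a (x N * v) (A * v)
      (∑ k ∈ range N, ((h * v - J) / ρ *
        (κ * (1 - θ) / (v ^ 2 * (1 + max (x (k + 1) ^ 2) (x k ^ 2))) - 1) ^ 2
        - κ * (1 - θ) / (v ^ 2 * (1 + max (x (k + 1) ^ 2) (x k ^ 2))))) := by
  have hA0 : 0 ≤ A := le_trans (abs_nonneg _) (hxN 0 (by omega))
  induction N with
  | zero =>
    refine ⟨0, fun _ => 2, fun _ => 0, ?_, ?_, ?_, ?_, ?_, ?_, ?_, ?_, ?_⟩ <;> simp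
  | succ N ih =>
    obtain ⟨T₁, ℓ₁, a₁, h₁⟩ := ih (fun k hk => hxN k (by omega))
    obtain ⟨T₂, ℓ₂, a₂, h₂⟩ := single_epoch (J := J) hκ hρ hθ hθ1 hv hJ hq hγ0 hγ hS hqv hq1 hq2 hsm
      (x (N + 1)) (x N) (hxN _ le_rfl) (hxN _ (by omega)) (by rw [hx]; exact hJx)
    rw [hx] at h₂
    have hxN1 : x (N + 1) ≤ x N := by
      have h1 := hx N
      have h2 : 0 ≤ h * v := le_trans hJ hJx
      have h3 : 0 ≤ h := by
        by_contra hcon
        push Not at hcon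
        nlinarith
      linarith
    have h3 := h₁.append hG h₂ hq (by positivity) (by linarith) (by gcongr) (by
      have h4 : x N * v ≤ A * v := by
        have := (abs_le.1 (hxN N (by omega))).2
        gcongr
      linarith)
    rw [← Finset.sum_range_succ] at h3
    exact ⟨_, _, _, h3⟩

/-- the Riemann sum -/
theorem riemann (h : ℝ) (hh : 0 < h) (R : ℕ) :
    2 * (Gf (R * h) - Gf h) ≤ ∑ k ∈ range (2 * R),
      h / (1 + max ((((R : ℝ) - ((k + 1 : ℕ) : ℝ)) * h) ^ 2) ((((R : ℝ) - (k : ℝ)) * h) ^ 2)) ^ 2 := by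
  have h2R : 2 * R = R + R := by ring
  rw [h2R, Finset.sum_range_add]
  have e1 : ∀ n : ℕ, n ≤ R → Gf (((R : ℝ) + 1) * h) - Gf (((R : ℝ) + 1 - n) * h) ≤
      ∑ k ∈ range n, h / (1 + max ((((R : ℝ) - ((k + 1 : ℕ) : ℝ)) * h) ^ 2)
        ((((R : ℝ) - (k : ℝ)) * h) ^ 2)) ^ 2 := by
    intro n hn
    induction n with
    | zero => simp
    | succ n ih =>
      have h1 := ih (by omega)
      rw [Finset.sum_range_succ]
      have hnR : (n : ℝ) + 1 ≤ R := by exact_mod_cast hn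
      have h2 : max ((((R : ℝ) - ((n + 1 : ℕ) : ℝ)) * h) ^ 2) ((((R : ℝ) - (n : ℝ)) * h) ^ 2) =
          (((R : ℝ) - (n : ℝ)) * h) ^ 2 := by
        apply max_eq_right
        apply pow_le_pow_left₀
        · push_cast
          have : 0 ≤ (R : ℝ) - (n + 1) := by linarith
          positivity
        · push_cast
          gcongr
          linarith
      rw [h2]
      have h3 := Gf_incr_le (l := ((R : ℝ) - n) * h) (u := ((R : ℝ) - n) * h + h) (by linarith)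
        (by have : 0 ≤ (R : ℝ) - n := by linarith
            positivity)
      have h4 : ((R : ℝ) - n) * h + h = ((R : ℝ) + 1 - n) * h := by ring
      have h5 : ((R : ℝ) + 1 - n) * h - ((R : ℝ) - n) * h = h := by ring
      rw [h4, h5] at h3
      have h6 : ((R : ℝ) + 1 - ((n + 1 : ℕ) : ℝ)) * h = ((R : ℝ) - n) * h := by push_cast; ring
      rw [h6]
      linarith
  have e2 : ∑ k ∈ range R, h / (1 + max ((((R : ℝ) - ((R + k + 1 : ℕ) : ℝ)) * h) ^ 2)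
        ((((R : ℝ) - ((R + k : ℕ) : ℝ)) * h) ^ 2)) ^ 2 =
      ∑ k ∈ range R, h / (1 + max ((((R : ℝ) - ((k + 1 : ℕ) : ℝ)) * h) ^ 2)
        ((((R : ℝ) - (k : ℝ)) * h) ^ 2)) ^ 2 := by
    rw [← Finset.sum_range_reflect]
    refine Finset.sum_congr rfl fun k hk => ?_
    have hk' := Finset.mem_range.1 hk
    have h1 : ((R - 1 - k : ℕ) : ℝ) = (R : ℝ) - 1 - k := by
      rw [Nat.cast_sub (by omega), Nat.cast_sub (by omega)]
      simp
    push_cast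
    rw [h1]
    rw [max_comm]
    congr 4
    · ring
    · ring
  have e3 := e1 R le_rfl
  have e4 : Gf (R * h) ≤ Gf (((R : ℝ) + 1) * h) := by
    apply Gf_mono
    nlinarith
  have e5 : ((R : ℝ) + 1 - R) * h = h := by ring
  rw [e5] at e3
  rw [e2]
  linarith

theorem exists_blocks {κ ρ G S K : ℝ} {γ : ℕ → ℝ} (hκ : 0 < κ) (hρ : 0 < ρ) (hγ0 : γ 0 ≤ 1 - κ)
    (hγ : ∀ t : ℕ, 1 ≤ t → γ t ≤ ρ * t - κ) (hG : ∀ t, |γ t| ≤ G) (hS : 0 ≤ S)
    (hK : K < π / 2 * (κ ^ 2 / ρ)) :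
    ∃ η₀ > 0, ∀ η : ℝ, 0 < η → η < η₀ → ∃ (T : ℕ) (ℓ : ℕ → ℕ) (a : ℕ → ℝ),
      (∀ b < T, 2 ≤ ℓ b) ∧ (∀ b < T, |a b| + S / √(ℓ b) ≤ 1) ∧
      (∀ b < T, η ≤ 1 / ℓ b - (ℓ b * a b ^ 2 + γ 0) / (ℓ b - 1)) ∧
      (∀ b b', b < b' → b' < T → a b * a b' + γ (b' - b) / (√(ℓ b) * √(ℓ b')) ≤ a b - a b' - η) ∧
      K / √η ^ 3 ≤ ∑ b ∈ range T, (ℓ b : ℝ) := by
  have hG0 : 0 ≤ G := le_trans (abs_nonneg _) (hG 0)
  -- choice of θ
  obtain ⟨θ, hθ, hθ1, hθK⟩ : ∃ θ : ℝ, 0 < θ ∧ θ < 1 ∧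
      K < π / 2 * (κ ^ 2 * (1 - θ) ^ 2 / ρ) := by
    have hc : Continuous (fun θ : ℝ => π / 2 * (κ ^ 2 * (1 - θ) ^ 2 / ρ)) := by fun_prop
    have h1 : ∀ᶠ θ in nhds (0 : ℝ), K < π / 2 * (κ ^ 2 * (1 - θ) ^ 2 / ρ) := by
      apply hc.continuousAt.eventually_const_lt
      simpa using hK
    have h2 : ∀ᶠ θ in nhds (0 : ℝ), θ < 1 := eventually_lt_nhds (by norm_num)
    have h3 : ∀ᶠ θ in nhdsWithin (0 : ℝ) (Set.Ioi 0), 0 < θ ∧ θ < 1 ∧
        K < π / 2 * (κ ^ 2 * (1 - θ) ^ 2 / ρ) := by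
      filter_upwards [nhdsWithin_le_nhds h1, nhdsWithin_le_nhds h2, self_mem_nhdsWithin]
        with θ ha hb hc
      exact ⟨hc, hb, ha⟩
    exact h3.exists
  set P := κ ^ 2 * (1 - θ) ^ 2 / ρ with hP
  have h1θ : 0 < 1 - θ := by linarith
  have hP0 : 0 < P := by positivity
  -- choice of the tolerance
  obtain ⟨δ, hδ, hδK⟩ : ∃ δ : ℝ, 0 < δ ∧ K < (π / 2 - δ) * P := by
    refine ⟨(π / 2 * P - K) / (2 * P), by apply div_pos <;> linarith, ?_⟩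
    have : (π / 2 - (π / 2 * P - K) / (2 * P)) * P = π / 2 * P - (π / 2 * P - K) / 2 := by
      field_simp
    rw [this]
    linarith
  obtain ⟨A₀, hA₀⟩ : ∃ A₀ : ℝ, ∀ x, A₀ ≤ x → π / 4 - δ / 4 < Gf x := by
    have := tendsto_Gf.eventually_const_lt (show π / 4 - δ / 4 < π / 4 by linarith)
    exact Filter.eventually_atTop.1 this
  obtain ⟨h, hh, hhδ⟩ : ∃ h : ℝ, 0 < h ∧ Gf h < δ / 4 := by
    have h1 : ∀ᶠ h in nhds (0 : ℝ), Gf h < δ / 4 := by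
      apply Gf_continuous.continuousAt.eventually_lt_const
      rw [Gf_zero]; linarith
    have h3 : ∀ᶠ h in nhdsWithin (0 : ℝ) (Set.Ioi 0), 0 < h ∧ Gf h < δ / 4 := by
      filter_upwards [nhdsWithin_le_nhds h1, self_mem_nhdsWithin] with θ ha hc
      exact ⟨hc, ha⟩
    exact h3.exists
  set R := ⌈A₀ / h⌉₊ with hR
  set A := (R : ℝ) * h with hA
  have hAA₀ : A₀ ≤ A := by
    have : A₀ / h ≤ R := Nat.le_ceil _
    rw [div_le_iff₀ hh] at this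
    exact this
  have hA0 : 0 ≤ A := by positivity
  set x : ℕ → ℝ := fun k => ((R : ℝ) - (k : ℝ)) * h with hx
  have hRie := riemann h hh R
  have hsumK : K < P * ∑ k ∈ range (2 * R), h / (1 + max (x (k + 1) ^ 2) (x k ^ 2)) ^ 2 := by
    have h1 := hA₀ A hAA₀
    have h2 : π / 2 - δ ≤ 2 * (Gf A - Gf h) := by linarith
    calc K < (π / 2 - δ) * P := hδK
      _ = P * (π / 2 - δ) := mul_comm _ _
      _ ≤ P * (∑ k ∈ range (2 * R), h / (1 + max (x (k + 1) ^ 2) (x k ^ 2)) ^ 2) := by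
        apply mul_le_mul_of_nonneg_left _ hP0.le
        refine le_trans h2 ?_
        exact hRie
  -- constants
  set Q := √(2 * (1 + A ^ 2) / (κ * (1 - θ))) with hQ
  have hQ2 : Q ^ 2 = 2 * (1 + A ^ 2) / (κ * (1 - θ)) := Real.sq_sqrt (by positivity)
  have hQ0 : 0 ≤ Q := Real.sqrt_nonneg _
  set C := 1 + A ^ 2 + G * Q ^ 2 with hC
  have hC0 : 0 < C := by positivity
  set Ψ : ℝ → ℝ := fun v => ∑ k ∈ range (2 * R), (((h - C * v) / ρ *
        (κ * (1 - θ) / (1 + max (x (k + 1) ^ 2) (x k ^ 2)) - v ^ 2) ^ 2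
        - v * (κ * (1 - θ) / (1 + max (x (k + 1) ^ 2) (x k ^ 2))))) with hΨ
  have hΨc : Continuous Ψ := by
    rw [hΨ]
    fun_prop
  have hΨ0 : K < Ψ 0 := by
    refine lt_of_lt_of_eq hsumK ?_
    rw [hΨ, Finset.mul_sum]
    refine Finset.sum_congr rfl fun k _ => ?_
    have hm0 : 0 < 1 + max (x (k + 1) ^ 2) (x k ^ 2) := by
      have : 0 ≤ max (x (k + 1) ^ 2) (x k ^ 2) := le_trans (sq_nonneg _) (le_max_left _ _)
      linarith
    rw [hP]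
    field_simp
    ring
  -- eventually
  have hev : ∀ᶠ v in nhdsWithin (0 : ℝ) (Set.Ioi 0), K < Ψ v ∧ C * v < h ∧
      Q ^ 2 * v ^ 2 < κ * θ ∧ Q ^ 2 * v ^ 2 < 1 / 2 ∧ A * v + S * (Q * v) < 1 := by
    have g1 : ∀ᶠ v in nhds (0 : ℝ), K < Ψ v := hΨc.continuousAt.eventually_const_lt hΨ0
    have g2 : ∀ᶠ v in nhds (0 : ℝ), C * v < h := by
      apply (show Continuous fun v : ℝ => C * v by fun_prop).continuousAt.eventually_lt_const
      simpa using hh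
    have g3 : ∀ᶠ v in nhds (0 : ℝ), Q ^ 2 * v ^ 2 < κ * θ := by
      apply (show Continuous fun v : ℝ => Q ^ 2 * v ^ 2 by fun_prop).continuousAt.eventually_lt_const
      simp; positivity
    have g4 : ∀ᶠ v in nhds (0 : ℝ), Q ^ 2 * v ^ 2 < 1 / 2 := by
      apply (show Continuous fun v : ℝ => Q ^ 2 * v ^ 2 by fun_prop).continuousAt.eventually_lt_const
      norm_num
    have g5 : ∀ᶠ v in nhds (0 : ℝ), A * v + S * (Q * v) < 1 := by
      apply (show Continuous fun v : ℝ => A * v + S * (Q * v) by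
        fun_prop).continuousAt.eventually_lt_const
      norm_num
    exact nhdsWithin_le_nhds (g1.and (g2.and (g3.and (g4.and g5))))
  obtain ⟨v₀, hv₀, hv₀s⟩ := mem_nhdsGT_iff_exists_Ioo_subset.1 hev
  have hv₀0 : 0 < v₀ := hv₀
  refine ⟨v₀ ^ 2, by positivity, ?_⟩
  intro η hη hηlt
  set v := √η with hv
  have hv0 : 0 < v := Real.sqrt_pos.2 hη
  have hvη : v ^ 2 = η := Real.sq_sqrt hη.le
  have hvv : v < v₀ := by
    apply lt_of_pow_lt_pow_left₀ 2 hv₀0.le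
    rw [hvη]
    exact hηlt
  obtain ⟨g1, g2, g3, g4, g5⟩ : K < Ψ v ∧ C * v < h ∧
      Q ^ 2 * v ^ 2 < κ * θ ∧ Q ^ 2 * v ^ 2 < 1 / 2 ∧ A * v + S * (Q * v) < 1 :=
    hv₀s ⟨hv0, hvv⟩
  have hxA : ∀ k ≤ 2 * R, |x k| ≤ A := by
    intro k hk
    have hk' : (k : ℝ) ≤ 2 * R := by exact_mod_cast hk
    have hk0 : (0 : ℝ) ≤ k := Nat.cast_nonneg _
    rw [hx, hA, abs_le]
    constructor <;> nlinarith
  obtain ⟨T, ℓ, a, hB⟩ := all_epochs (κ := κ) (ρ := ρ) (θ := θ) (v := v) (J := C * v ^ 2) (A := A)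
    (S := S) (q := Q * v) (G := G) (γ := γ) hκ hρ hθ hθ1 hv0 (by positivity) (by positivity)
    hγ0 hγ hS hG (by
      rw [mul_pow Q v 2, hQ2]
      have hne : κ * (1 - θ) ≠ 0 := by positivity
      generalize A ^ 2 = A2
      field_simp) (by rw [mul_pow Q v 2]; exact g3.le) (by rw [mul_pow Q v 2]; exact g4.le) g5.le (by
      rw [hC]
      generalize A = AA
      apply le_of_eq
      ring) x h (fun k => by rw [hx]; push_cast; ring) (by nlinarith) (2 * R) hxA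
  rw [hvη] at hB
  refine ⟨T, ℓ, a, hB.two, hB.small, hB.same, hB.cross, ?_⟩
  refine le_trans ?_ hB.wt
  rw [div_le_iff₀ (by positivity)]
  refine le_trans g1.le (le_of_eq ?_)
  rw [hΨ, Finset.sum_mul]
  refine Finset.sum_congr rfl fun k _ => ?_
  have hm0 : 0 < 1 + max (x (k + 1) ^ 2) (x k ^ 2) := by
    have : 0 ≤ max (x (k + 1) ^ 2) (x k ^ 2) := le_trans (sq_nonneg _) (le_max_left _ _)
    linarith
  set mm := 1 + max (x (k + 1) ^ 2) (x k ^ 2) with hmm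
  rw [← hvη]
  field_simp

end Pool.Agent.LibHelper37.Mac
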