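import Mathlib
import Pool.Agent.Lib_helper37.Mac.Defs

set_option autoImplicit false

namespace Pool.Agent.LibHelper37.Mac

open Finset Real

theorem cor_self {ι : Type} [Fintype ι] {p : ι → ℝ} {s : ι → ℕ → ℝ} {ν : ℕ} {η : ℝ}
    (h : IsProc p s ν η) (i : ℕ) : cor p s i i = 1 := by
  unfold cor
  rw [← h.p_sum]
  refine Finset.sum_congr rfl fun ω _ => ?_
  rcases h.sign ω i with h1 | h1 <;> rw [h1] <;> ring

theorem cov_eq {ι : Type} [Fintype ι] {p : ι → ℝ} {s : ι → ℕ → ℝ} {ν : ℕ} {η : ℝ}
    (h : IsProc p s ν η) (i j : ℕ) :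
    ∑ ω, p ω * ((s ω i - mean p s i) * (s ω j - mean p s j)) =
      cor p s i j - mean p s i * mean p s j := by
  have e1 : ∀ ω, p ω * ((s ω i - mean p s i) * (s ω j - mean p s j)) =
      p ω * (s ω i * s ω j) - mean p s j * (p ω * s ω i) - mean p s i * (p ω * s ω j)
        + mean p s i * mean p s j * p ω := fun ω => by ring
  rw [Finset.sum_congr rfl fun ω _ => e1 ω, Finset.sum_add_distrib, Finset.sum_sub_distrib,
    Finset.sum_sub_distrib, ← Finset.mul_sum, ← Finset.mul_sum, ← Finset.mul_sum, h.p_sum]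
  show cor p s i j - mean p s j * mean p s i - mean p s i * mean p s j
    + mean p s i * mean p s j * 1 = _
  ring

/-- telescoping with lag `m` -/
theorem lag_sum_le (a : ℕ → ℝ) (t N m : ℕ) (hm : m ≤ N) (hN : 1 ≤ N) (D : ℝ)
    (hD : ∀ i j, i < N → j < N → a (t + i) - a (t + j) ≤ D) :
    ∑ k ∈ range (N - m), (a (t + k) - a (t + (k + m))) ≤ m * D := by
  have e1 : ∑ k ∈ range N, a (t + k) = ∑ k ∈ range (N - m), a (t + k) +
      ∑ k ∈ range m, a (t + ((N - m) + k)) := by
    conv_lhs => rw [← Nat.sub_add_cancel hm]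
    rw [Finset.sum_range_add]
  have e2 : ∑ k ∈ range N, a (t + k) = ∑ k ∈ range m, a (t + k) +
      ∑ k ∈ range (N - m), a (t + (m + k)) := by
    conv_lhs => rw [← Nat.add_sub_cancel' hm]
    rw [Finset.sum_range_add]
  have e3 : ∑ k ∈ range (N - m), (a (t + k) - a (t + (k + m))) =
      ∑ k ∈ range m, (a (t + k) - a (t + ((N - m) + k))) := by
    rw [Finset.sum_sub_distrib, Finset.sum_sub_distrib]
    have e4 : ∑ k ∈ range (N - m), a (t + (k + m)) = ∑ k ∈ range (N - m), a (t + (m + k)) :=
      Finset.sum_congr rfl fun k _ => by rw [Nat.add_comm k m]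
    rw [e4]
    linarith
  rw [e3]
  calc ∑ k ∈ range m, (a (t + k) - a (t + ((N - m) + k))) ≤ ∑ _k ∈ range m, D := by
        refine Finset.sum_le_sum fun k hk => ?_
        have hk' := Finset.mem_range.1 hk
        exact hD _ _ (by omega) (by omega)
    _ = m * D := by rw [Finset.sum_const, Finset.card_range, nsmul_eq_mul]

theorem epoch_design {ι : Type} [Fintype ι] {p : ι → ℝ} {s : ι → ℕ → ℝ} {ν : ℕ} {η : ℝ}
    (h : IsProc p s ν η) (hmono : ∀ i j, i ≤ j → j < ν → mean p s j ≤ mean p s i)
    (t N : ℕ) (hN : 1 ≤ N) (htN : t + N ≤ ν) (κ : ℝ) (hκ : 0 < κ) (hκ1 : κ < 1)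
    (hq : ∀ i j, t ≤ i → i < t + N → t ≤ j → j < t + N → κ ≤ η + mean p s i * mean p s j) :
    Design (κ * (1 - κ)) ((1 - κ) * ((mean p s t - mean p s (t + N - 1) + κ) / N)) := by
  classical
  have hN0 : (0 : ℝ) < N := by exact_mod_cast hN
  have h1κ : 0 < 1 - κ := by linarith
  set Δ := mean p s t - mean p s (t + N - 1) with hΔ
  have hΔ0 : 0 ≤ Δ := by
    have := hmono t (t + N - 1) (by omega) (by omega)
    linarith
  have hD : ∀ i j, i < N → j < N → mean p s (t + i) - mean p s (t + j) ≤ Δ := by
    intro i j hi hj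
    have h1 := hmono t (t + i) (by omega) (by omega)
    have h2 := hmono (t + j) (t + N - 1) (by omega) (by omega)
    linarith
  let e : ι ≃ Fin (Fintype.card ι) := Fintype.equivFin ι
  let c : ℕ → ℕ → ℝ := fun ω k => if hω : ω < Fintype.card ι then
    √((1 - κ) * p (e.symm ⟨ω, hω⟩) / N) * (s (e.symm ⟨ω, hω⟩) (t + k) - mean p s (t + k)) else 0
  have hauto : ∀ m, autoc (Fintype.card ι) N c m =
      (1 - κ) / N * ∑ k ∈ range (N - m), (cor p s (t + k) (t + (k + m)) -
        mean p s (t + k) * mean p s (t + (k + m))) := by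
    intro m
    unfold autoc
    rw [Finset.sum_comm, Finset.mul_sum]
    refine Finset.sum_congr rfl fun k _ => ?_
    rw [← cov_eq h, Finset.mul_sum, Finset.sum_range, ← Equiv.sum_comp e]
    refine Finset.sum_congr rfl fun ω _ => ?_
    have hω : ((e ω : Fin (Fintype.card ι)) : ℕ) < Fintype.card ι := (e ω).2
    have hc : ∀ k', c (e ω : ℕ) k' =
        √((1 - κ) * p ω / N) * (s ω (t + k') - mean p s (t + k')) := by
      intro k'
      show (if hω : ((e ω : Fin (Fintype.card ι)) : ℕ) < Fintype.card ι then _ else _) = _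
      rw [dif_pos hω]
      have : e.symm ⟨((e ω : Fin (Fintype.card ι)) : ℕ), hω⟩ = ω := by
        rw [Fin.eta, Equiv.symm_apply_apply]
      rw [this]
    rw [hc, hc]
    have hnn : 0 ≤ (1 - κ) * p ω / N := by
      have := h.p_nonneg ω
      positivity
    have hsq := Real.mul_self_sqrt hnn
    calc √((1 - κ) * p ω / N) * (s ω (t + k) - mean p s (t + k)) *
          (√((1 - κ) * p ω / N) * (s ω (t + (k + m)) - mean p s (t + (k + m))))
        = (√((1 - κ) * p ω / N) * √((1 - κ) * p ω / N)) * ((s ω (t + k) - mean p s (t + k)) *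
          (s ω (t + (k + m)) - mean p s (t + (k + m)))) := by ring
      _ = _ := by rw [hsq]; ring
  refine ⟨mul_pos hκ h1κ, Fintype.card ι, N, c, ?_, ?_⟩
  · rw [hauto]
    have h1 : ∑ k ∈ range (N - 0), (cor p s (t + k) (t + (k + 0)) -
        mean p s (t + k) * mean p s (t + (k + 0))) ≤ N := by
      calc ∑ k ∈ range (N - 0), (cor p s (t + k) (t + (k + 0)) -
        mean p s (t + k) * mean p s (t + (k + 0))) ≤ ∑ _k ∈ range (N - 0), (1 : ℝ) := by
            refine Finset.sum_le_sum fun k _ => ?_
            rw [Nat.add_zero, cor_self h]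
            nlinarith [mul_self_nonneg (mean p s (t + k))]
        _ = N := by simp
    calc (1 - κ) / N * ∑ k ∈ range (N - 0), (cor p s (t + k) (t + (k + 0)) -
        mean p s (t + k) * mean p s (t + (k + 0))) ≤ (1 - κ) / N * N := by gcongr
      _ = 1 - κ := by field_simp
      _ ≤ 1 - κ * (1 - κ) := by nlinarith
  · intro m hm
    rw [hauto]
    by_cases hmN : m < N
    · have h1 : ∑ k ∈ range (N - m), (cor p s (t + k) (t + (k + m)) -
          mean p s (t + k) * mean p s (t + (k + m))) ≤ m * Δ - κ * (N - m) := by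
        calc ∑ k ∈ range (N - m), (cor p s (t + k) (t + (k + m)) -
              mean p s (t + k) * mean p s (t + (k + m)))
            ≤ ∑ k ∈ range (N - m), ((mean p s (t + k) - mean p s (t + (k + m))) - κ) := by
              refine Finset.sum_le_sum fun k hk => ?_
              have hk' := Finset.mem_range.1 hk
              have h2 := h.ineq (t + k) (t + (k + m)) (by omega) (by omega)
              have h3 := hq (t + k) (t + (k + m)) (by omega) (by omega) (by omega) (by omega)
              linarith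
          _ = ∑ k ∈ range (N - m), (mean p s (t + k) - mean p s (t + (k + m)))
                - κ * (N - m) := by
              rw [Finset.sum_sub_distrib, Finset.sum_const, Finset.card_range, nsmul_eq_mul,
                Nat.cast_sub hmN.le]
              ring
          _ ≤ m * Δ - κ * (N - m) := by
              have := lag_sum_le (fun i => mean p s i) t N m hmN.le hN Δ hD
              linarith
      calc (1 - κ) / N * ∑ k ∈ range (N - m), (cor p s (t + k) (t + (k + m)) -
          mean p s (t + k) * mean p s (t + (k + m)))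
          ≤ (1 - κ) / N * (m * Δ - κ * (N - m)) := by gcongr
        _ = (1 - κ) * ((Δ + κ) / N) * m - κ * (1 - κ) := by field_simp; ring
    · have h0 : N - m = 0 := by omega
      rw [h0, Finset.range_zero, Finset.sum_empty, mul_zero]
      have hmN' : (N : ℝ) ≤ m := by exact_mod_cast not_lt.1 hmN
      have h1 : κ * (1 - κ) ≤ (1 - κ) * ((Δ + κ) / N) * N := by
        have : (1 - κ) * ((Δ + κ) / N) * N = (1 - κ) * (Δ + κ) := by field_simp
        rw [this]
        nlinarith
      have h2 : 0 ≤ (1 - κ) * ((Δ + κ) / N) := by positivity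
      nlinarith

end Pool.Agent.LibHelper37.Mac
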