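import Mathlib
import Pool.Agent.Lib_helper37.Mac.Defs

set_option autoImplicit false

namespace Pool.Agent.LibHelper37.Mac

open Finset Real

/-- a filter of length 220, in units of 1/200000 -/
def zl : List ℤ := [
  90617, -110524, -5404, 12936, 7483, 1158, -320, 971, 1821, 1735, 1379, 1175,
  1096, 992, 802, 562, 325, 106, -124, -409, -756, -1116, -1417, -1749,
  -2095, -2239, -6789, -53689, 46747, 37958, 3842, -5752, -4397, -2142, -1592, -2430,
  -2951, -2782, -2382, -2074, -1830, -1520, -1115, -681, -269, 150, 657, 1275,
  1884, 2303, 2748, 3571, 5142, 12781, 25894, -12200, -33728, -23926, -3799, 4459,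
  4775, 3046, 2737, 3431, 3770, 3492, 3001, 2561, 2142, 1651, 1095, 532,
  -40, -697, -1471, -2230, -2772, -3280, -4312, -6836, -13960, -15846, 808, 21927,
  28812, 15002, 617, -5017, -4657, -3439, -3465, -4017, -4123, -3710, -3135, -2593,
  -2055, -1468, -841, -177, 568, 1401, 2193, 2790, 3362, 4495, 7240, 12498,
  12572, 3216, -12671, -24385, -20191, -7335, 2259, 4970, 4161, 3439, 3680, 4052,
  3930, 3409, 2804, 2240, 1685, 1093, 438, -314, -1137, -1885, -2429, -2972,
  -4120, -6669, -10219, -10250, -4537, 6292, 16883, 18825, 11299, 1694, -3482, -4126,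
  -3308, -3062, -3371, -3511, -3212, -2679, -2143, -1657, -1173, -629, 23, 760,
  1422, 1851, 2229, 3197, 5380, 7896, 7663, 3599, -2820, -9133, -13297, -10807,
  -4223, 1118, 3005, 2739, 2288, 2345, 2543, 2475, 2137, 1721, 1344, 1001,
  633, 179, -372, -902, -1219, -1373, -1927, -3543, -5569, -5356, -1060, 3247,
  2512, 6227, 6428, 3697, 497, -1270, -1545, -1291, -1193, -1276, -1304, -1178,
  -964, -752, -568, -390, -175, 107, 413, 606, 616, 736, 1570, 2969,
  3029, -924, -7349, 1409]

/-- the product sum of two lists -/
def dotl : List ℤ → List ℤ → ℤ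
  | a :: as, b :: bs => a * b + dotl as bs
  | _, _ => 0

/-- all autocorrelations with positive lag are below the line -/
def chk (l : List ℤ) : List ℤ → ℤ → Bool
  | [], _ => true
  | d :: ds, B => decide (dotl l (d :: ds) ≤ B) && chk l ds (B + 263217600)

theorem chk_zl : chk zl zl.tail (263217600 - 3600000000) = true := by decide +kernel

theorem dot_zl : dotl zl zl ≤ 36400000000 := by decide +kernel

theorem length_zl : zl.length = 220 := by decide +kernel

theorem dotl_eq (a b : List ℤ) (h : b.length ≤ a.length) :
    dotl a b = ∑ k ∈ range b.length, a.getD k 0 * b.getD k 0 := by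
  induction b generalizing a with
  | nil =>
    cases a <;> simp [dotl]
  | cons x b ih =>
    cases a with
    | nil => simp at h
    | cons y a =>
      simp only [List.length_cons] at h ⊢
      rw [Finset.sum_range_succ', dotl, ih a (by omega)]
      simp only [List.getD_cons_succ, List.getD_cons_zero]
      ring

theorem chk_spec (l : List ℤ) (d : List ℤ) (B : ℤ) (h : chk l d B = true) (t : ℕ)
    (ht : t < d.length) : dotl l (d.drop t) ≤ B + t * 263217600 := by
  induction d generalizing B t with
  | nil => simp at ht
  | cons x d ih =>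
    rw [chk, Bool.and_eq_true, decide_eq_true_eq] at h
    cases t with
    | zero => simpa using h.1
    | succ t =>
      have := ih _ h.2 t (by simpa using ht)
      rw [List.drop_succ_cons]
      push_cast
      linarith

theorem autoc_zl (t : ℕ) :
    autoc 1 220 (fun _ k => ((zl.getD k 0 : ℤ) : ℝ) / 200000) t =
      ((dotl zl (zl.drop t) : ℤ) : ℝ) / 40000000000 := by
  have h1 : (zl.drop t).length = 220 - t := by rw [List.length_drop, length_zl]
  rw [dotl_eq _ _ (by rw [h1, length_zl]; omega), h1]
  unfold autoc
  rw [Finset.sum_range_one, Int.cast_sum, Finset.sum_div]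
  refine Finset.sum_congr rfl fun k _ => ?_
  have h2 : (zl.drop t).getD k 0 = zl.getD (k + t) 0 := by
    rw [List.getD_eq_getElem?_getD, List.getD_eq_getElem?_getD, List.getElem?_drop, Nat.add_comm]
  rw [h2]
  push_cast
  ring

theorem numeric_design : Design (9 / 100) (8124 / 10000 * (9 / 100) ^ 2) := by
  refine ⟨by norm_num, 1, 220, fun _ k => ((zl.getD k 0 : ℤ) : ℝ) / 200000, ?_, ?_⟩
  · rw [autoc_zl, List.drop_zero]
    have h : ((dotl zl zl : ℤ) : ℝ) ≤ 36400000000 := by exact_mod_cast dot_zl
    rw [div_le_iff₀ (by norm_num)]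
    linarith
  · intro t ht
    rw [autoc_zl]
    by_cases h220 : t < 220
    · have h1 := chk_spec zl zl.tail _ chk_zl (t - 1) (by
        rw [List.length_tail, length_zl]; omega)
      have h2 : zl.tail.drop (t - 1) = zl.drop t := by
        rw [← List.drop_one, List.drop_drop]
        congr 1
        omega
      rw [h2] at h1
      have h3 : ((t - 1 : ℕ) : ℤ) = (t : ℤ) - 1 := by omega
      rw [h3] at h1
      have h4 : ((dotl zl (zl.drop t) : ℤ) : ℝ) ≤
          (263217600 - 3600000000) + ((t : ℝ) - 1) * 263217600 := by exact_mod_cast h1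
      rw [div_le_iff₀ (by norm_num)]
      linarith
    · have h1 : zl.drop t = [] := by
        rw [List.drop_eq_nil_iff, length_zl]; omega
      rw [h1]
      have h2 : dotl zl [] = 0 := by simp [zl, dotl]
      rw [h2]
      have h3 : (220 : ℝ) ≤ t := by exact_mod_cast not_lt.1 h220
      norm_num
      linarith

end Pool.Agent.LibHelper37.Mac
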