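import Mathlib
import Pool.Agent.Lib_helper37.Mac.Gfun

set_option autoImplicit false

namespace Pool.Agent.LibHelper37.Mac

open Finset Real

/-- one epoch, in the scaled variable `x = a / v`, `v = √η` -/
theorem inner_epoch {β A θ v : ℝ} (hβ : 0 < β) (hA : 1 ≤ A) (hθ : 0 < θ) (hθ1 : θ < 1 / 2)
    (hv : 0 < v) (N : ℕ) (hN1 : 1 + θ ≤ θ * β * v ^ 2 * N)
    (hv1 : v ^ 2 * (1 + A ^ 2) ≤ θ) (x : ℕ → ℝ) (t : ℕ) (hN : 1 ≤ N)
    (hx : ∀ i j, t ≤ i → i ≤ j → j < t + N → x j ≤ x i)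
    (hxA : ∀ i, t ≤ i → i < t + N → |x i| ≤ A)
    (hbad : N * β * v ^ 3 * (2 * (1 + θ) * A * (1 + A ^ 2)) ≤ θ)
    (hep : ∀ κ, 0 < κ → κ ≤ v ^ 2 * (1 + A ^ 2) →
      (∀ i j, t ≤ i → i < t + N → t ≤ j → j < t + N → κ ≤ v ^ 2 * (1 + x i * x j)) →
      N * (β * (1 - κ) * κ ^ 2) ≤ v * (x t - x (t + N - 1)) + κ) :
    N * β * v ^ 3 * ((1 - 2 * θ) / (1 + θ) ^ 2) ≤ Gf (x t) - Gf (x (t + N - 1)) := by
  have hN0 : (0 : ℝ) < N := by exact_mod_cast hN
  set y := max |x t| |x (t + N - 1)| with hy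
  have hyA : y ≤ A := max_le (hxA _ le_rfl (by omega)) (hxA _ (by omega) (by omega))
  have hy0 : 0 ≤ y := le_trans (abs_nonneg _) (le_max_left _ _)
  have hyA2 : y ^ 2 ≤ A ^ 2 := pow_le_pow_left₀ hy0 hyA 2
  have hle : x (t + N - 1) ≤ x t := hx _ _ le_rfl (by omega) (by omega)
  have hGf := Gf_incr hle (y := y) (le_max_right _ _) (le_max_left _ _)
  refine le_trans ?_ hGf
  have hy2 : (0 : ℝ) < 1 + y ^ 2 := by positivity
  rw [le_div_iff₀ (by positivity)]
  set κ := v ^ 2 * (1 + y ^ 2) / (1 + θ) with hκ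
  have hκ0 : 0 < κ := by positivity
  have hκle : κ ≤ v ^ 2 * (1 + A ^ 2) := by
    rw [hκ, div_le_iff₀ (by linarith)]
    have : v ^ 2 * (1 + y ^ 2) ≤ v ^ 2 * (1 + A ^ 2) := by gcongr
    have h2 : 0 ≤ v ^ 2 * (1 + A ^ 2) := by positivity
    nlinarith
  by_cases hgood : ∀ i j, t ≤ i → i < t + N → t ≤ j → j < t + N → κ ≤ v ^ 2 * (1 + x i * x j)
  · have h1 := hep κ hκ0 hκle hgood
    -- κ ≤ θ N β κ²
    have h2 : 1 ≤ θ * (N * β * κ) := by
      have h3 : v ^ 2 / (1 + θ) ≤ κ := by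
        rw [hκ]
        gcongr
        have : 0 ≤ v ^ 2 * y ^ 2 := by positivity
        nlinarith
      have h4 : θ * (N * β * (v ^ 2 / (1 + θ))) ≤ θ * (N * β * κ) := by gcongr
      refine le_trans ?_ h4
      have h5 : θ * (N * β * (v ^ 2 / (1 + θ))) = (θ * β * v ^ 2 * N) / (1 + θ) := by
        field_simp
      rw [h5, le_div_iff₀ (by linarith)]
      linarith
    have h3 : κ ≤ θ * (N * β * κ ^ 2) := by
      have := mul_le_mul_of_nonneg_right h2 hκ0.le
      nlinarith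
    have h4 : κ ≤ θ := le_trans hκle hv1
    have hP : 0 < N * β * κ ^ 2 := by positivity
    have h5 : N * β * κ ^ 2 * (1 - 2 * θ) ≤ v * (x t - x (t + N - 1)) := by
      have h6 : N * (β * (1 - κ) * κ ^ 2) = N * β * κ ^ 2 * (1 - κ) := by ring
      have h7 : N * β * κ ^ 2 * (1 - θ) ≤ N * β * κ ^ 2 * (1 - κ) := by
        apply mul_le_mul_of_nonneg_left _ hP.le
        linarith
      nlinarith
    have h6 : N * β * κ ^ 2 * (1 - 2 * θ) =
        v * (N * β * v ^ 3 * ((1 - 2 * θ) / (1 + θ) ^ 2) * (1 + y ^ 2) ^ 2) := by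
      rw [hκ]
      field_simp
    rw [h6] at h5
    exact le_of_mul_le_mul_left h5 hv
  · push Not at hgood
    obtain ⟨i, j, hi1, hi2, hj1, hj2, hij⟩ := hgood
    -- distance bound
    have hxi1 : x i ≤ x t := hx _ _ le_rfl hi1 hi2
    have hxi2 : x (t + N - 1) ≤ x i := hx _ _ hi1 (by omega) (by omega)
    have hxj1 : x j ≤ x t := hx _ _ le_rfl hj1 hj2
    have hxj2 : x (t + N - 1) ≤ x j := hx _ _ hj1 (by omega) (by omega)
    have hxiy : |x i| ≤ y := by
      rw [abs_le]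
      constructor
      · have h1 := neg_abs_le (x (t + N - 1))
        have h2 : |x (t + N - 1)| ≤ y := le_max_right _ _
        linarith
      · have h1 := le_abs_self (x t)
        have h2 : |x t| ≤ y := le_max_left _ _
        linarith
    obtain ⟨e, hey, hei, hej⟩ : ∃ e : ℝ, |e| = y ∧ |e - x i| ≤ x t - x (t + N - 1) ∧
        |e - x j| ≤ x t - x (t + N - 1) := by
      rcases max_choice |x t| |x (t + N - 1)| with h1 | h1
      · refine ⟨x t, by rw [hy, h1], ?_, ?_⟩ <;> rw [abs_le] <;> constructor <;> linarith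
      · refine ⟨x (t + N - 1), by rw [hy, h1], ?_, ?_⟩ <;> rw [abs_le] <;> constructor <;> linarith
    have hdist : y ^ 2 - x i * x j ≤ 2 * y * (x t - x (t + N - 1)) := by
      have h1 : y ^ 2 - x i * x j = e * (e - x i) + x i * (e - x j) := by
        rw [← hey, sq_abs]; ring
      rw [h1]
      have h2 : e * (e - x i) ≤ y * (x t - x (t + N - 1)) := by
        refine le_trans (le_abs_self _) ?_
        rw [abs_mul, hey]
        gcongr
      have h3 : x i * (e - x j) ≤ y * (x t - x (t + N - 1)) := by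
        refine le_trans (le_abs_self _) ?_
        rw [abs_mul]
        gcongr
      linarith
    have h1 : θ * (1 + y ^ 2) / (1 + θ) ≤ 2 * y * (x t - x (t + N - 1)) := by
      refine le_trans ?_ hdist
      have h2 : 1 + x i * x j < (1 + y ^ 2) / (1 + θ) := by
        have h3 : v ^ 2 * (1 + x i * x j) < v ^ 2 * ((1 + y ^ 2) / (1 + θ)) := by
          rw [← mul_div_assoc]
          exact hij
        exact lt_of_mul_lt_mul_left h3 (by positivity)
      have h4 : θ * (1 + y ^ 2) / (1 + θ) = (1 + y ^ 2) - (1 + y ^ 2) / (1 + θ) := by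
        field_simp
        ring
      rw [h4]
      linarith
    set d := x t - x (t + N - 1) with hd
    have hd0 : 0 ≤ d := by linarith
    have h2 : θ * (1 + y ^ 2) ≤ 2 * (1 + θ) * A * d := by
      rw [div_le_iff₀ (by linarith)] at h1
      have h3 : 2 * y * d * (1 + θ) ≤ 2 * A * d * (1 + θ) := by gcongr
      linarith
    -- N β v³ (1-2θ)/(1+θ)² (1+y²)² ≤ N β v³ (1+y²)² ≤ d
    have h3 : (1 - 2 * θ) / (1 + θ) ^ 2 ≤ 1 := by
      rw [div_le_one (by positivity)]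
      nlinarith
    have hq : 0 ≤ N * β * v ^ 3 := by positivity
    have h4 : N * β * v ^ 3 * ((1 - 2 * θ) / (1 + θ) ^ 2) * (1 + y ^ 2) ^ 2 ≤
        N * β * v ^ 3 * (1 + y ^ 2) ^ 2 := by
      have : N * β * v ^ 3 * ((1 - 2 * θ) / (1 + θ) ^ 2) ≤ N * β * v ^ 3 * 1 := by gcongr
      rw [mul_one] at this
      gcongr
    refine le_trans h4 ?_
    have hA0 : (0:ℝ) < A := by linarith
    have h5 : N * β * v ^ 3 * (1 + y ^ 2) ^ 2 * (2 * (1 + θ) * A) ≤ d * (2 * (1 + θ) * A) := by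
      calc N * β * v ^ 3 * (1 + y ^ 2) ^ 2 * (2 * (1 + θ) * A)
          = (N * β * v ^ 3 * (2 * (1 + θ) * A * (1 + y ^ 2))) * (1 + y ^ 2) := by ring
        _ ≤ (N * β * v ^ 3 * (2 * (1 + θ) * A * (1 + A ^ 2))) * (1 + y ^ 2) := by gcongr
        _ ≤ θ * (1 + y ^ 2) := by gcongr
        _ ≤ d * (2 * (1 + θ) * A) := by linarith
    exact le_of_mul_le_mul_right h5 (by positivity)

/-- all epochs -/
theorem inner_fixed {β A θ v : ℝ} (hβ : 0 < β) (hA : 1 ≤ A) (hθ : 0 < θ) (hθ1 : θ < 1 / 2)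
    (hv : 0 < v) (N : ℕ) (hN : 1 ≤ N) (hN1 : 1 + θ ≤ θ * β * v ^ 2 * N)
    (hv1 : v ^ 2 * (1 + A ^ 2) ≤ θ)
    (hbad : N * β * v ^ 3 * (2 * (1 + θ) * A * (1 + A ^ 2)) ≤ θ)
    (n : ℕ) (x : ℕ → ℝ) (hx : ∀ i j, i ≤ j → j < n → x j ≤ x i) (hxA : ∀ i < n, |x i| ≤ A)
    (hep : ∀ (t : ℕ) (κ : ℝ), t + N ≤ n → 0 < κ → κ ≤ v ^ 2 * (1 + A ^ 2) →
      (∀ i j, t ≤ i → i < t + N → t ≤ j → j < t + N → κ ≤ v ^ 2 * (1 + x i * x j)) →
      N * (β * (1 - κ) * κ ^ 2) ≤ v * (x t - x (t + N - 1)) + κ) :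
    (n : ℝ) ≤ π / (2 * β) * ((1 + θ) ^ 2 / (1 - 2 * θ)) / v ^ 3 + N := by
  have hN0 : (0 : ℝ) < N := by exact_mod_cast hN
  set δ := N * β * v ^ 3 * ((1 - 2 * θ) / (1 + θ) ^ 2) with hδ
  have h2θ : 0 < 1 - 2 * θ := by linarith
  have hδ0 : 0 < δ := by positivity
  have key : ∀ E : ℕ, (E + 1) * N ≤ n → (E + 1) * δ ≤ Gf (x 0) - Gf (x ((E + 1) * N - 1)) := by
    intro E
    induction E with
    | zero =>
      intro h
      have h1 : 0 + N ≤ n := by linarith
      have h2 := inner_epoch hβ hA hθ hθ1 hv N hN1 hv1 x 0 hN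
        (fun i j _ h3 h4 => hx i j h3 (by omega)) (fun i _ h4 => hxA i (by omega)) hbad
        (fun κ h3 h4 h5 => hep 0 κ h1 h3 h4 h5)
      rw [Nat.zero_add] at h2
      simpa using h2
    | succ E ih =>
      intro h
      have h0 : (E + 1) * N + N ≤ n := by
        have : (E + 1 + 1) * N = (E + 1) * N + N := by ring
        rw [this] at h
        exact h
      have h1 := ih (by omega)
      have h2 := inner_epoch hβ hA hθ hθ1 hv N hN1 hv1 x ((E + 1) * N) hN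
        (fun i j _ h3 h4 => hx i j h3 (by omega)) (fun i _ h4 => hxA i (by omega)) hbad
        (fun κ h3 h4 h5 => hep _ κ h0 h3 h4 h5)
      have h3 : (E + 1) * N + N - 1 = (E + 1 + 1) * N - 1 := by
        have : (E + 1 + 1) * N = (E + 1) * N + N := by ring
        rw [this]
      rw [h3] at h2
      have h4 : 0 < (E + 1) * N := by positivity
      have h5 : Gf (x ((E + 1) * N)) ≤ Gf (x ((E + 1) * N - 1)) :=
        Gf_mono (hx _ _ (by omega) (by omega))
      push_cast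
      linarith
  -- number of epochs
  set E := n / N with hE
  have hEn : E * N ≤ n := Nat.div_mul_le_self n N
  have hnE : n < E * N + N := by
    have := Nat.lt_div_mul_add (a := n) (b := N) (by omega)
    rw [hE]
    omega
  have hEδ : E * δ ≤ π / 2 := by
    rcases Nat.eq_zero_or_pos E with h0 | h0
    · rw [h0]
      have := pi_pos
      simp
      linarith
    · obtain ⟨E', hE'⟩ : ∃ E', E = E' + 1 := ⟨E - 1, by omega⟩
      have h1 := key E' (by rw [← hE']; exact hEn)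
      have h2 := Gf_le (x 0)
      have h3 := neg_le_Gf (x ((E' + 1) * N - 1))
      rw [hE']
      push_cast
      linarith
  have h1 : (n : ℝ) ≤ E * N + N := by exact_mod_cast hnE.le
  have h2 : (E : ℝ) * N ≤ π / (2 * β) * ((1 + θ) ^ 2 / (1 - 2 * θ)) / v ^ 3 := by
    have h3 : (E : ℝ) * N = (E * δ) * ((1 + θ) ^ 2 / (1 - 2 * θ) / (β * v ^ 3)) := by
      rw [hδ]
      field_simp
    have h4 : π / (2 * β) * ((1 + θ) ^ 2 / (1 - 2 * θ)) / v ^ 3 =
        (π / 2) * ((1 + θ) ^ 2 / (1 - 2 * θ) / (β * v ^ 3)) := by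
      field_simp
    rw [h3, h4]
    gcongr
  linarith

theorem inner {β A κ₀ K : ℝ} (hβ : 0 < β) (hA : 1 ≤ A) (hκ₀ : 0 < κ₀) (hK : π / (2 * β) < K) :
    ∃ η₀ > 0, ∀ η : ℝ, 0 < η → η < η₀ → ∀ (n : ℕ) (a : ℕ → ℝ),
      (∀ i j, i ≤ j → j < n → a j ≤ a i) → (∀ i < n, |a i| ≤ A * √η) →
      (∀ (t N : ℕ) (κ : ℝ), 1 ≤ N → t + N ≤ n → 0 < κ → κ < 1 → κ ≤ κ₀ →
        (∀ i j, t ≤ i → i < t + N → t ≤ j → j < t + N → κ ≤ η + a i * a j) →
        N * (β * (1 - κ) * κ ^ 2) ≤ a t - a (t + N - 1) + κ) →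
      (n : ℝ) ≤ K / √η ^ 3 := by
  set K' := (π / (2 * β) + K) / 2 with hK'
  have hK'1 : π / (2 * β) < K' := by rw [hK']; linarith
  have hK'2 : K' < K := by rw [hK']; linarith
  -- choice of θ
  obtain ⟨θ, hθ, hθ1, hθK⟩ : ∃ θ : ℝ, 0 < θ ∧ θ < 1 / 2 ∧
      π / (2 * β) * ((1 + θ) ^ 2 / (1 - 2 * θ)) < K' := by
    have hc : ContinuousAt (fun θ : ℝ => π / (2 * β) * ((1 + θ) ^ 2 / (1 - 2 * θ))) 0 := by
      apply ContinuousAt.mul continuousAt_const
      apply ContinuousAt.div (by fun_prop) (by fun_prop)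
      norm_num
    have h1 : ∀ᶠ θ in nhds (0 : ℝ), π / (2 * β) * ((1 + θ) ^ 2 / (1 - 2 * θ)) < K' := by
      apply hc.eventually_lt_const
      simpa using hK'1
    have h2 : ∀ᶠ θ in nhds (0 : ℝ), θ < 1 / 2 := eventually_lt_nhds (by norm_num)
    have h3 : ∀ᶠ θ in nhdsWithin (0 : ℝ) (Set.Ioi 0), 0 < θ ∧ θ < 1 / 2 ∧
        π / (2 * β) * ((1 + θ) ^ 2 / (1 - 2 * θ)) < K' := by
      filter_upwards [nhdsWithin_le_nhds h1, nhdsWithin_le_nhds h2, self_mem_nhdsWithin]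
        with θ ha hb hc
      exact ⟨hc, hb, ha⟩
    exact h3.exists
  set M := (1 + θ) / (θ * β) + 1 with hM
  have hM0 : 0 < M := by positivity
  set C := 2 * (1 + θ) * A * (1 + A ^ 2) with hC
  have hA0 : 0 < A := by linarith
  have hC0 : 0 < C := by positivity
  have hKK : 0 < K - K' := by linarith
  set v₀ := min (min 1 (θ / (M * β * C))) (min ((K - K') / M)
    (min (θ / (1 + A ^ 2)) (κ₀ / (1 + A ^ 2)))) with hv₀
  have hv₀0 : 0 < v₀ := by
    rw [hv₀]
    refine lt_min (lt_min one_pos (by positivity)) (lt_min (by positivity)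
      (lt_min (by positivity) (by positivity)))
  refine ⟨v₀ ^ 2, by positivity, ?_⟩
  intro η hη hηv n a hmono hA' hep
  set v := √η with hv
  have hv0 : 0 < v := Real.sqrt_pos.2 hη
  have hvη : v ^ 2 = η := Real.sq_sqrt hη.le
  have hvv : v < v₀ := by
    apply lt_of_pow_lt_pow_left₀ 2 hv₀0.le
    rw [hvη]
    exact hηv
  have hb1 : v < 1 := lt_of_lt_of_le hvv (le_trans (min_le_left _ _) (min_le_left _ _))
  have hb2 : v < θ / (M * β * C) :=
    lt_of_lt_of_le hvv (le_trans (min_le_left _ _) (min_le_right _ _))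
  have hb3 : v < (K - K') / M :=
    lt_of_lt_of_le hvv (le_trans (min_le_right _ _) (min_le_left _ _))
  have hb4 : v < θ / (1 + A ^ 2) :=
    lt_of_lt_of_le hvv (le_trans (min_le_right _ _) (le_trans (min_le_right _ _) (min_le_left _ _)))
  have hb5 : v < κ₀ / (1 + A ^ 2) :=
    lt_of_lt_of_le hvv (le_trans (min_le_right _ _) (le_trans (min_le_right _ _) (min_le_right _ _)))
  have hA2 : 0 < 1 + A ^ 2 := by positivity
  rw [lt_div_iff₀ (by positivity)] at hb2 hb3 hb4 hb5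
  have hv2 : v ^ 2 ≤ v := by nlinarith
  set N := ⌈(1 + θ) / (θ * β * v ^ 2)⌉₊ with hN
  have hNpos : 0 < (1 + θ) / (θ * β * v ^ 2) := by positivity
  have hN1 : 1 ≤ N := Nat.ceil_pos.2 hNpos
  have hNle : (1 + θ) / (θ * β * v ^ 2) ≤ N := Nat.le_ceil _
  have hNlt : (N : ℝ) < (1 + θ) / (θ * β * v ^ 2) + 1 := Nat.ceil_lt_add_one hNpos.le
  have hNv : N * v ^ 2 ≤ M := by
    have h1 : N * v ^ 2 ≤ ((1 + θ) / (θ * β * v ^ 2) + 1) * v ^ 2 := by gcongr
    have h2 : ((1 + θ) / (θ * β * v ^ 2) + 1) * v ^ 2 = (1 + θ) / (θ * β) + v ^ 2 := by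
      field_simp
    rw [h2] at h1
    rw [hM]
    nlinarith
  have hN0 : (0:ℝ) < N := by exact_mod_cast hN1
  set x : ℕ → ℝ := fun i => a i / v with hx
  have hax : ∀ i, a i = v * x i := fun i => by rw [hx]; field_simp
  have main := inner_fixed hβ hA hθ hθ1 hv0 N hN1 ?_ ?_ ?_ n x ?_ ?_ ?_
  · refine le_trans main ?_
    have h1 : π / (2 * β) * ((1 + θ) ^ 2 / (1 - 2 * θ)) / v ^ 3 ≤ K' / v ^ 3 := by gcongr
    have h2 : (N : ℝ) ≤ (K - K') / v ^ 3 := by
      rw [le_div_iff₀ (by positivity)]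
      calc N * v ^ 3 = (N * v ^ 2) * v := by ring
        _ ≤ M * v := by gcongr
        _ ≤ K - K' := by linarith
    have h3 : K / v ^ 3 = K' / v ^ 3 + (K - K') / v ^ 3 := by ring
    rw [h3]
    linarith
  · rw [div_le_iff₀ (by positivity)] at hNle
    linarith
  · nlinarith
  · calc N * β * v ^ 3 * (2 * (1 + θ) * A * (1 + A ^ 2)) = (N * v ^ 2) * (v * (β * C)) := by
          rw [hC]; ring
      _ ≤ M * (v * (β * C)) := by gcongr
      _ ≤ θ := by nlinarith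
  · intro i j hij hj
    have := hmono i j hij hj
    rw [hx]
    show a j / v ≤ a i / v
    gcongr
  · intro i hi
    have := hA' i hi
    show |a i / v| ≤ A
    rw [abs_div, abs_of_pos hv0, div_le_iff₀ hv0]
    exact this
  · intro t κ ht hκ0 hκle hq
    have h1 := hep t N κ hN1 ht hκ0 (by nlinarith) (by nlinarith) ?_
    · have h2 : a t - a (t + N - 1) = v * (x t - x (t + N - 1)) := by rw [hax t, hax (t + N - 1)]; ring
      rw [h2] at h1
      exact h1
    · intro i j h2 h3 h4 h5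
      have h6 := hq i j h2 h3 h4 h5
      rw [hax i, hax j, ← hvη]
      calc κ ≤ v ^ 2 * (1 + x i * x j) := h6
        _ = _ := by ring

end Pool.Agent.LibHelper37.Mac
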