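import Mathlib
import Pool.Agent.Lib_helper37.Mac.Defs

set_option autoImplicit false

namespace Pool.Agent.LibHelper37.Mac

open Finset Real

/-- sign of a Boolean -/
def bs (b : Bool) : ℝ := if b then 1 else -1

theorem bs_eq (b : Bool) : bs b = 1 ∨ bs b = -1 := by
  cases b <;> simp [bs]

/-- the transitive tournament on `Fin ν` with given weights -/
noncomputable def ttour (ν : ℕ) (W : Fin ν → Fin ν → ℝ) (hW : ∀ i j, i < j → 0 ≤ W i j) :
    WDigraph (Fin ν) where
  Arc i j := i < j
  w i j := if i < j then W i j else 0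
  w_nonneg i j := by
    split_ifs with h
    · exact hW i j h
    · exact le_rfl
  w_eq_zero i j h := if_neg h

theorem ttour_acyclic (ν : ℕ) (W : Fin ν → Fin ν → ℝ) (hW : ∀ i j, i < j → 0 ≤ W i j) :
    (ttour ν W hW).Acyclic := by
  intro v hv
  have : ∀ {a b : Fin ν}, Relation.TransGen (ttour ν W hW).Arc a b → a < b := by
    intro a b h
    induction h with
    | single h => exact h
    | tail _ h ih => exact lt_trans ih h
  exact lt_irrefl _ (this hv)

theorem ttour_maxPathOrder (ν : ℕ) (W : Fin ν → Fin ν → ℝ) (hW : ∀ i j, i < j → 0 ≤ W i j)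
    (hν : 0 < ν) : (ttour ν W hW).MaxPathOrder ν := by
  constructor
  · refine ⟨List.finRange ν, ⟨?_, List.nodup_finRange ν, ?_⟩, List.length_finRange⟩
    · intro h
      have := congrArg List.length h
      simp at this
      omega
    · have h1 : (List.finRange ν).Pairwise (· < ·) := List.pairwise_lt_finRange ν
      exact h1.isChain
  · rintro n ⟨l, ⟨_, hl, _⟩, rfl⟩
    simpa using hl.length_le_card

/-- the cut weight in terms of signs -/
theorem cut_eq_signs {V : Type} [Fintype V] [DecidableEq V] (D : WDigraph V) (X : Finset V)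
    (s : V → ℝ) (hs : ∀ v, s v = if v ∈ X then 1 else -1) :
    D.cut X = 1 / 4 * ∑ u, ∑ v, D.w u v * ((1 + s u) * (1 - s v)) := by
  unfold WDigraph.cut
  have e1 : ∀ i, ∑ j ∈ Xᶜ, D.w i j = ∑ j, D.w i j * ((1 - s j) / 2) := by
    intro i
    rw [← Finset.sum_subset (Finset.subset_univ Xᶜ)]
    · refine sum_congr rfl fun j hj => ?_
      rw [mem_compl] at hj
      rw [hs, if_neg hj]
      ring
    · intro j _ hj
      rw [mem_compl, not_not] at hj
      rw [hs, if_pos hj]
      ring
  rw [Finset.mul_sum, ← Finset.sum_subset (Finset.subset_univ X)]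
  · refine sum_congr rfl fun i hi => ?_
    rw [e1, Finset.mul_sum]
    refine sum_congr rfl fun j _ => ?_
    rw [hs i, if_pos hi]
    ring
  · intro i _ hi
    rw [Finset.sum_eq_zero, mul_zero]
    intro j _
    rw [hs i, if_neg hi]
    ring

theorem exists_proc_of_mem {ν : ℕ} {η : ℝ} (hν : 1 ≤ ν) (h : 1 / 4 + η / 4 ∈ cSet ν) :
    ∃ (ι : Type) (_ : Fintype ι) (p : ι → ℝ) (s : ι → ℕ → ℝ), IsProc p s ν η := by
  classical
  let X : (Fin ν → Bool) → (Fin ν × Fin ν → ℝ) := fun ω x =>
    if x.1 < x.2 then (1 + bs (ω x.1)) * (1 - bs (ω x.2)) else 0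
  let L : ((Fin ν → Bool) → ℝ) →ₗ[ℝ] (Fin ν × Fin ν → ℝ) :=
    ∑ ω, (LinearMap.proj ω).smulRight (X ω)
  have hL : ∀ p x, L p x = ∑ ω, p ω * X ω x := by
    intro p x
    simp [L, LinearMap.sum_apply, Finset.sum_apply]
  let B : Set (Fin ν × Fin ν → ℝ) := {z | ∀ i j, i < j → 1 + η ≤ z (i, j)}
  by_cases hdis : Disjoint (L '' stdSimplex ℝ (Fin ν → Bool)) B
  · exfalso
    have hBc : Convex ℝ B := by
      intro x hx y hy a b ha hb hab i j hij
      have h1 := hx i j hij
      have h2 := hy i j hij
      show 1 + η ≤ a * x (i, j) + b * y (i, j)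
      have : 1 + η = a * (1 + η) + b * (1 + η) := by rw [← add_mul, hab, one_mul]
      rw [this]
      gcongr
    have hBcl : IsClosed B := by
      have : B = ⋂ (i : Fin ν), ⋂ (j : Fin ν), ⋂ (_ : i < j), {z | 1 + η ≤ z (i, j)} := by
        ext z
        simp [B]
      rw [this]
      refine isClosed_iInter fun i => isClosed_iInter fun j => isClosed_iInter fun _ => ?_
      exact isClosed_le continuous_const (continuous_apply _)
    have hLc : Continuous L := L.continuous_of_finiteDimensional
    obtain ⟨f, u, v, hfa, huv, hfb⟩ := geometric_hahn_banach_compact_closed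
      ((convex_stdSimplex ℝ (Fin ν → Bool)).linear_image L)
      ((isCompact_stdSimplex ℝ (Fin ν → Bool)).image hLc) hBc hBcl hdis
    let w : Fin ν × Fin ν → ℝ := fun x => f (Pi.single x 1)
    have hf : ∀ z, f z = ∑ x, w x * z x := by
      intro z
      have h1 : z = ∑ x, z x • (Pi.single x (1 : ℝ) : Fin ν × Fin ν → ℝ) := by
        ext y
        simp [Finset.sum_apply, Pi.single_apply]
      conv_lhs => rw [h1]
      rw [map_sum]
      refine Finset.sum_congr rfl fun x _ => ?_
      rw [map_smul, smul_eq_mul, mul_comm]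
    let b₀ : Fin ν × Fin ν → ℝ := fun x => if x.1 < x.2 then 1 + η else 0
    have hb₀ : b₀ ∈ B := by
      intro i j hij
      simp [b₀, hij]
    have hw : ∀ i j, i < j → 0 ≤ w (i, j) := by
      intro i j _
      by_contra hneg
      push Not at hneg
      -- b₀ + t e
      have hv := hfb b₀ hb₀
      set t := (f b₀ - v) / (-w (i, j)) with ht
      have ht0 : 0 ≤ t := by
        apply div_nonneg <;> linarith
      have hmem : b₀ + t • (Pi.single (i, j) (1 : ℝ) : Fin ν × Fin ν → ℝ) ∈ B := by
        intro i' j' hij'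
        have h1 := hb₀ i' j' hij'
        show 1 + η ≤ b₀ (i', j') + t * (Pi.single (i, j) (1 : ℝ) : Fin ν × Fin ν → ℝ) (i', j')
        have h2 : 0 ≤ (Pi.single (i, j) (1 : ℝ) : Fin ν × Fin ν → ℝ) (i', j') := by
          rw [Pi.single_apply]
          split_ifs <;> norm_num
        have := mul_nonneg ht0 h2
        linarith
      have h2 := hfb _ hmem
      rw [map_add, map_smul, smul_eq_mul] at h2
      have h3 : t * f (Pi.single (i, j) 1) = -(f b₀ - v) := by
        show t * w (i, j) = _
        rw [ht]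
        have : w (i, j) ≠ 0 := hneg.ne
        field_simp
      rw [h3] at h2
      linarith
    have hcs := h.2 (Fin ν) (ttour ν (fun i j => w (i, j)) hw) (ttour_acyclic _ _ _)
      (ttour_maxPathOrder _ _ _ hν)
    have htot : (ttour ν (fun i j => w (i, j)) hw).total * (1 + η) = f b₀ := by
      rw [hf, Fintype.sum_prod_type]
      unfold WDigraph.total
      rw [Finset.sum_mul]
      refine Finset.sum_congr rfl fun i _ => ?_
      rw [Finset.sum_mul]
      refine Finset.sum_congr rfl fun j _ => ?_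
      show (if i < j then w (i, j) else 0) * (1 + η) = w (i, j) * (if i < j then 1 + η else 0)
      split_ifs <;> ring
    have hmac : (ttour ν (fun i j => w (i, j)) hw).mac ≤ 1 / 4 * u := by
      refine Finset.sup'_le _ _ fun Y _ => ?_
      let ω : Fin ν → Bool := fun v => decide (v ∈ Y)
      rw [cut_eq_signs _ Y (fun v => bs (ω v)) (fun v => by simp [bs, ω])]
      have h1 : f (X ω) < u := by
        apply hfa
        refine ⟨Pi.single ω 1, single_mem_stdSimplex ℝ ω, ?_⟩
        ext x
        rw [hL]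
        simp [Pi.single_apply]
      have h2 : ∑ a, ∑ b, (ttour ν (fun i j => w (i, j)) hw).w a b *
          ((1 + bs (ω a)) * (1 - bs (ω b))) = f (X ω) := by
        rw [hf, Fintype.sum_prod_type]
        refine Finset.sum_congr rfl fun i _ => Finset.sum_congr rfl fun j _ => ?_
        show (if i < j then w (i, j) else 0) * _ = w (i, j) * (if i < j then _ else 0)
        split_ifs <;> ring
      rw [h2]
      linarith
    have h1 := hfb b₀ hb₀
    have h2 : (1 / 4 + η / 4) * (ttour ν (fun i j => w (i, j)) hw).total = 1 / 4 * f b₀ := by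
      rw [← htot]; ring
    rw [h2] at hcs
    linarith
  · rw [Set.not_disjoint_iff] at hdis
    obtain ⟨z, ⟨p, hp, rfl⟩, hz⟩ := hdis
    refine ⟨Fin ν → Bool, inferInstance, p, fun ω i => if hi : i < ν then bs (ω ⟨i, hi⟩) else 1,
      ⟨hp.1, hp.2, ?_, ?_⟩⟩
    · intro ω i
      split_ifs
      · exact bs_eq _
      · exact Or.inl rfl
    · intro i j hij hj
      have h1 := hz ⟨i, by omega⟩ ⟨j, hj⟩ hij
      rw [hL] at h1
      have h2 : ∑ ω, p ω * X ω (⟨i, by omega⟩, ⟨j, hj⟩) =
          ∑ ω, p ω + ∑ ω, p ω * bs (ω ⟨i, by omega⟩) - ∑ ω, p ω * bs (ω ⟨j, hj⟩) -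
            ∑ ω, p ω * (bs (ω ⟨i, by omega⟩) * bs (ω ⟨j, hj⟩)) := by
        rw [← Finset.sum_add_distrib, ← Finset.sum_sub_distrib, ← Finset.sum_sub_distrib]
        refine Finset.sum_congr rfl fun ω _ => ?_
        have : X ω (⟨i, by omega⟩, ⟨j, hj⟩) =
            (1 + bs (ω ⟨i, by omega⟩)) * (1 - bs (ω ⟨j, hj⟩)) := by
          show (if (⟨i, by omega⟩ : Fin ν) < ⟨j, hj⟩ then _ else _) = _
          rw [if_pos (show (⟨i, by omega⟩ : Fin ν) < ⟨j, hj⟩ from hij)]
        rw [this]
        ring
      rw [h2, hp.2] at h1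
      have hi : i < ν := by omega
      unfold cor mean
      simp only [dif_pos hi, dif_pos hj]
      linarith

end Pool.Agent.LibHelper37.Mac
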