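import Mathlib
import Pool.Agent.Lib_helper37.Mac.Defs

set_option autoImplicit false

namespace Pool.Agent.LibHelper37.Mac

open Finset Real

theorem sq_sum_range (x : ℕ → ℝ) (L : ℕ) :
    (∑ k ∈ range L, x k) ^ 2 = ∑ k ∈ range L, x k ^ 2 +
      2 * ∑ j ∈ range L, ∑ i ∈ range j, x i * x j := by
  induction L with
  | zero => simp
  | succ L ih =>
    rw [Finset.sum_range_succ, Finset.sum_range_succ, Finset.sum_range_succ, add_sq, ih,
      ← Finset.sum_mul]
    ring

theorem sum_pair_const (L : ℕ) (η : ℝ) :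
    2 * ∑ j ∈ range L, ∑ _i ∈ range j, η = η * (L * ((L : ℝ) - 1)) := by
  induction L with
  | zero => simp
  | succ L ih =>
    rw [Finset.sum_range_succ, mul_add, ih, Finset.sum_const, Finset.card_range, nsmul_eq_mul]
    push_cast
    ring

/-- second moment of a window sum -/
theorem moment_le {ι : Type} [Fintype ι] {p : ι → ℝ} {s : ι → ℕ → ℝ} {ν : ℕ} {η : ℝ}
    (h : IsProc p s ν η) (t L : ℕ) (ht : t + L ≤ ν) :
    ∑ ω, p ω * (∑ k ∈ range L, s ω (t + k)) ^ 2 ≤
      L + 2 * ∑ j ∈ range L, ∑ i ∈ range j, (mean p s (t + i) - mean p s (t + j))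
        - η * (L * ((L : ℝ) - 1)) := by
  have e1 : ∑ ω, p ω * (∑ k ∈ range L, s ω (t + k)) ^ 2 =
      L + 2 * ∑ j ∈ range L, ∑ i ∈ range j, cor p s (t + i) (t + j) := by
    have e2 : ∀ ω, p ω * (∑ k ∈ range L, s ω (t + k)) ^ 2 =
        p ω * L + 2 * ∑ j ∈ range L, ∑ i ∈ range j, p ω * (s ω (t + i) * s ω (t + j)) := by
      intro ω
      rw [sq_sum_range (fun k => s ω (t + k)) L, mul_add]
      congr 1
      · congr 1
        rw [Finset.sum_congr rfl (g := fun _ => (1 : ℝ))]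
        · simp
        · intro k _
          rcases h.sign ω (t + k) with h1 | h1 <;> simp [h1]
      · rw [← mul_assoc, mul_comm (p ω) 2, mul_assoc, Finset.mul_sum]
        congr 1
        refine Finset.sum_congr rfl fun j _ => ?_
        rw [Finset.mul_sum]
    rw [Finset.sum_congr rfl fun ω _ => e2 ω, Finset.sum_add_distrib, ← Finset.sum_mul, h.p_sum,
      one_mul, ← Finset.mul_sum, Finset.sum_comm]
    congr 2
    refine Finset.sum_congr rfl fun j _ => ?_
    rw [Finset.sum_comm]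
    rfl
  rw [e1, ← sum_pair_const]
  have e3 : ∑ j ∈ range L, ∑ i ∈ range j, cor p s (t + i) (t + j) ≤
      ∑ j ∈ range L, ∑ i ∈ range j, (mean p s (t + i) - mean p s (t + j) - η) := by
    refine Finset.sum_le_sum fun j hj => Finset.sum_le_sum fun i hi => ?_
    have h1 := Finset.mem_range.1 hj
    have h2 := Finset.mem_range.1 hi
    exact h.ineq _ _ (by omega) (by omega)
  have e4 : ∑ j ∈ range L, ∑ i ∈ range j, (mean p s (t + i) - mean p s (t + j) - η) =
      ∑ j ∈ range L, ∑ i ∈ range j, (mean p s (t + i) - mean p s (t + j)) -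
        ∑ j ∈ range L, ∑ _i ∈ range j, η := by
    rw [← Finset.sum_sub_distrib]
    refine Finset.sum_congr rfl fun j _ => ?_
    rw [← Finset.sum_sub_distrib]
  linarith

/-- Jensen -/
theorem sq_mean_le {ι : Type} [Fintype ι] {p : ι → ℝ} (hp : ∀ ω, 0 ≤ p ω) (hs : ∑ ω, p ω = 1)
    (X : ι → ℝ) : (∑ ω, p ω * X ω) ^ 2 ≤ ∑ ω, p ω * X ω ^ 2 := by
  set E := ∑ ω, p ω * X ω with hE
  have h1 : 0 ≤ ∑ ω, p ω * (X ω - E) ^ 2 :=
    Finset.sum_nonneg fun ω _ => mul_nonneg (hp ω) (sq_nonneg _)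
  have h2 : ∑ ω, p ω * (X ω - E) ^ 2 = ∑ ω, p ω * X ω ^ 2 - 2 * E * ∑ ω, p ω * X ω +
      E ^ 2 * ∑ ω, p ω := by
    have e1 : ∀ ω, p ω * (X ω - E) ^ 2 = p ω * X ω ^ 2 - 2 * E * (p ω * X ω) + E ^ 2 * p ω :=
      fun ω => by ring
    rw [Finset.sum_congr rfl fun ω _ => e1 ω, Finset.sum_add_distrib, Finset.sum_sub_distrib,
      ← Finset.mul_sum, ← Finset.mul_sum]
  rw [h2, hs, ← hE] at h1
  nlinarith

theorem window_drop {ι : Type} [Fintype ι] {p : ι → ℝ} {s : ι → ℕ → ℝ} {ν : ℕ} {η : ℝ}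
    (h : IsProc p s ν η) (hη : 0 < η) (hmono : ∀ i j, i ≤ j → j < ν → mean p s j ≤ mean p s i)
    (t L : ℕ) (hL : 1 ≤ L) (ht : t + L ≤ ν) (α : ℝ) (hα : 0 < α) (hαL : 2 ≤ α ^ 2 * L)
    (hm : α ≤ mean p s (t + L - 1)) : α ^ 2 / 2 ≤ mean p s t - mean p s (t + L - 1) := by
  set Δ := mean p s t - mean p s (t + L - 1) with hΔ
  have hL0 : (1 : ℝ) ≤ L := by exact_mod_cast hL
  have hΔ0 : 0 ≤ Δ := by
    have := hmono t (t + L - 1) (by omega) (by omega)
    linarith
  have h1 := moment_le h t L ht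
  have h2 := sq_mean_le h.p_nonneg h.p_sum (fun ω => ∑ k ∈ range L, s ω (t + k))
  have h3 : ∑ ω, p ω * ∑ k ∈ range L, s ω (t + k) = ∑ k ∈ range L, mean p s (t + k) := by
    unfold mean
    rw [Finset.sum_comm]
    refine Finset.sum_congr rfl fun ω _ => ?_
    rw [Finset.mul_sum]
  have h4 : (L : ℝ) * α ≤ ∑ k ∈ range L, mean p s (t + k) := by
    calc (L : ℝ) * α = ∑ _k ∈ range L, α := by simp
      _ ≤ _ := by
        refine Finset.sum_le_sum fun k hk => ?_
        have hk' := Finset.mem_range.1 hk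
        exact le_trans hm (hmono _ _ (by omega) (by omega))
  have h5 : (L * α) ^ 2 ≤ (∑ ω, p ω * ∑ k ∈ range L, s ω (t + k)) ^ 2 := by
    rw [h3]
    exact pow_le_pow_left₀ (by positivity) h4 2
  have h6 : 2 * ∑ j ∈ range L, ∑ i ∈ range j, (mean p s (t + i) - mean p s (t + j)) ≤
      Δ * (L * ((L : ℝ) - 1)) := by
    rw [← sum_pair_const]
    have : ∑ j ∈ range L, ∑ i ∈ range j, (mean p s (t + i) - mean p s (t + j)) ≤
        ∑ j ∈ range L, ∑ _i ∈ range j, Δ := by
      refine Finset.sum_le_sum fun j hj => Finset.sum_le_sum fun i hi => ?_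
      have h1 := Finset.mem_range.1 hj
      have h2 := Finset.mem_range.1 hi
      have h3 := hmono t (t + i) (by omega) (by omega)
      have h4 := hmono (t + j) (t + L - 1) (by omega) (by omega)
      linarith
    linarith
  have h7 : 0 ≤ η * (L * ((L : ℝ) - 1)) := by
    have : 0 ≤ (L : ℝ) - 1 := by linarith
    positivity
  have h8 : (L * α) ^ 2 ≤ L + Δ * (L * ((L : ℝ) - 1)) := by linarith
  have h9 : α ^ 2 * L ≤ 1 + Δ * L := by
    have hLpos : (0 : ℝ) < L := by linarith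
    have : L * (α ^ 2 * L) ≤ L * (1 + Δ * L) := by nlinarith [mul_nonneg hΔ0 hLpos.le]
    exact le_of_mul_le_mul_left this hLpos
  have hLpos : (0 : ℝ) < L := by linarith
  have : (α ^ 2 / 2) * L ≤ Δ * L := by nlinarith
  exact le_of_mul_le_mul_right this hLpos

theorem windows_drop {ι : Type} [Fintype ι] {p : ι → ℝ} {s : ι → ℕ → ℝ} {ν : ℕ} {η : ℝ}
    (h : IsProc p s ν η) (hη : 0 < η) (hmono : ∀ i j, i ≤ j → j < ν → mean p s j ≤ mean p s i)
    (t L : ℕ) (hL : 1 ≤ L) (α : ℝ) (hα : 0 < α) (hαL : 2 ≤ α ^ 2 * L) (q : ℕ)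
    (ht : t + (q + 1) * L ≤ ν) (hm : α ≤ mean p s (t + (q + 1) * L - 1)) :
    ((q : ℝ) + 1) * (α ^ 2 / 2) ≤ mean p s t - mean p s (t + (q + 1) * L - 1) := by
  induction q with
  | zero =>
    have := window_drop h hη hmono t L hL (by linarith) α hα hαL (by simpa using hm)
    simpa using this
  | succ q ih =>
    have e1 : (q + 1 + 1) * L = (q + 1) * L + L := by ring
    have e2 : t + (q + 1 + 1) * L = (t + (q + 1) * L) + L := by rw [e1]; ring
    have hpos : 0 < (q + 1) * L := by positivity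
    have hmid : mean p s (t + (q + 1 + 1) * L - 1) ≤ mean p s (t + (q + 1) * L - 1) :=
      hmono _ _ (by omega) (by omega)
    have h1 := ih (by omega) (le_trans hm hmid)
    have h2 := window_drop h hη hmono (t + (q + 1) * L) L hL (by omega) α hα hαL
      (by rw [← e2]; exact hm)
    rw [← e2] at h2
    have h3 : mean p s (t + (q + 1) * L) ≤ mean p s (t + (q + 1) * L - 1) :=
      hmono _ _ (by omega) (by omega)
    push_cast
    linarith

theorem mean_le_one {ι : Type} [Fintype ι] {p : ι → ℝ} {s : ι → ℕ → ℝ} {ν : ℕ} {η : ℝ}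
    (h : IsProc p s ν η) (i : ℕ) : mean p s i ≤ 1 := by
  unfold mean
  rw [← h.p_sum]
  refine Finset.sum_le_sum fun ω _ => ?_
  have := h.p_nonneg ω
  rcases h.sign ω i with h1 | h1 <;> rw [h1] <;> linarith

theorem outer_pos_aux {ι : Type} [Fintype ι] {p : ι → ℝ} {s : ι → ℕ → ℝ} {ν : ℕ} {η : ℝ}
    (h : IsProc p s ν η) (hη : 0 < η) (hmono : ∀ i j, i ≤ j → j < ν → mean p s j ≤ mean p s i)
    (r : ℕ) : ∀ (α : ℝ), 0 < α → 1 < α * 2 ^ r → ∀ (i : ℕ), i < ν → α ≤ mean p s i →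
      (i : ℝ) + 1 ≤ 11 / α ^ 3 := by
  induction r with
  | zero =>
    intro α hα h1 i _ h2
    have := mean_le_one h i
    rw [pow_zero, mul_one] at h1
    linarith
  | succ r ih =>
    intro α hα h1 i hi h2
    have hα1 : α ≤ 1 := le_trans h2 (mean_le_one h i)
    -- first index with mean < 2 α
    by_cases hbig : 2 * α ≤ mean p s i
    · have h3 := ih (2 * α) (by linarith) (by rw [pow_succ] at h1; linarith) i hi hbig
      refine le_trans h3 ?_
      gcongr
      linarith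
    push Not at hbig
    have hex : ∃ u, mean p s u < 2 * α := ⟨i, hbig⟩
    classical
    set u := Nat.find hex with hu
    have hu1 : mean p s u < 2 * α := Nat.find_spec hex
    have hui : u ≤ i := Nat.find_min' hex hbig
    have huc : (u : ℝ) ≤ 11 / (2 * α) ^ 3 := by
      rcases Nat.eq_zero_or_pos u with h0 | h0
      · rw [h0]
        simp only [Nat.cast_zero]
        positivity
      · have h3 : ¬ mean p s (u - 1) < 2 * α := Nat.find_min hex (by omega)
        push Not at h3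
        have h4 := ih (2 * α) (by linarith) (by rw [pow_succ] at h1; linarith) (u - 1) (by omega) h3
        have h5 : ((u - 1 : ℕ) : ℝ) + 1 = u := by
          have : u - 1 + 1 = u := by omega
          exact_mod_cast this
        linarith
    set L := ⌈2 / α ^ 2⌉₊ with hL
    have hLpos : 0 < 2 / α ^ 2 := by positivity
    have hL1 : 1 ≤ L := Nat.ceil_pos.2 hLpos
    have hL2 : 2 / α ^ 2 ≤ L := Nat.le_ceil _
    have hL3 : (L : ℝ) < 2 / α ^ 2 + 1 := Nat.ceil_lt_add_one hLpos.le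
    have hαL : 2 ≤ α ^ 2 * L := by
      rw [div_le_iff₀ (by positivity)] at hL2
      linarith
    set q := (i + 1 - u) / L with hq
    have hqL : q * L ≤ i + 1 - u := Nat.div_mul_le_self _ _
    have hqL2 : i + 1 - u < q * L + L := by
      have := Nat.lt_div_mul_add (a := i + 1 - u) (b := L) (by omega)
      rw [hq]
      omega
    have hq2 : (q : ℝ) ≤ 2 / α := by
      rcases Nat.eq_zero_or_pos q with h0 | h0
      · rw [h0]
        simp only [Nat.cast_zero]
        positivity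
      · obtain ⟨q', hq'⟩ : ∃ q', q = q' + 1 := ⟨q - 1, by omega⟩
        have hpos : 0 < (q' + 1) * L := by positivity
        rw [hq'] at hqL
        have h3 : α ≤ mean p s (u + (q' + 1) * L - 1) := le_trans h2 (hmono _ _ (by omega) hi)
        have h4 := windows_drop h hη hmono u L hL1 α hα hαL q' (by omega) h3
        have h5 : ((q' : ℝ) + 1) * (α ^ 2 / 2) ≤ α := by linarith
        rw [hq', le_div_iff₀ hα]
        push_cast
        have h6 : α * (((q' : ℝ) + 1) * α) ≤ α * 2 := by nlinarith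
        exact le_of_mul_le_mul_left h6 hα
    have h3 : ((i + 1 - u : ℕ) : ℝ) ≤ (2 / α + 1) * (2 / α ^ 2 + 1) := by
      calc ((i + 1 - u : ℕ) : ℝ) ≤ ((q * L + L : ℕ) : ℝ) := by exact_mod_cast hqL2.le
        _ = ((q : ℝ) + 1) * L := by push_cast; ring
        _ ≤ (2 / α + 1) * (2 / α ^ 2 + 1) := by gcongr
    have h4 : (2 / α + 1) * (2 / α ^ 2 + 1) ≤ 9 / α ^ 3 := by
      have h5 : 2 / α + 1 ≤ 3 / α := by
        rw [div_add_one hα.ne']
        gcongr
        linarith
      have h6 : 2 / α ^ 2 + 1 ≤ 3 / α ^ 2 := by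
        rw [div_add_one (by positivity)]
        gcongr
        nlinarith
      calc (2 / α + 1) * (2 / α ^ 2 + 1) ≤ (3 / α) * (3 / α ^ 2) := by gcongr
        _ = 9 / α ^ 3 := by field_simp; norm_num
    have h5 : (i : ℝ) + 1 = u + ((i + 1 - u : ℕ) : ℝ) := by
      have : i + 1 = u + (i + 1 - u) := by omega
      exact_mod_cast this
    rw [h5]
    have h6 : 11 / (2 * α) ^ 3 = (11 / 8) / α ^ 3 := by field_simp; norm_num
    rw [h6] at huc
    have h7 : (11 / 8) / α ^ 3 + 9 / α ^ 3 ≤ 11 / α ^ 3 := by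
      rw [← add_div]
      gcongr
      norm_num
    linarith

theorem outer_pos {ι : Type} [Fintype ι] {p : ι → ℝ} {s : ι → ℕ → ℝ} {ν : ℕ} {η : ℝ}
    (h : IsProc p s ν η) (hη : 0 < η) (hmono : ∀ i j, i ≤ j → j < ν → mean p s j ≤ mean p s i)
    (α : ℝ) (hα : 0 < α) (i : ℕ) (hi : i < ν) (hai : α ≤ mean p s i) :
    (i : ℝ) + 1 ≤ 11 / α ^ 3 := by
  obtain ⟨r, hr⟩ := pow_unbounded_of_one_lt (1 / α) (one_lt_two)
  refine outer_pos_aux h hη hmono r α hα ?_ i hi hai
  rw [div_lt_iff₀ hα] at hr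
  linarith

theorem outer_neg {ι : Type} [Fintype ι] {p : ι → ℝ} {s : ι → ℕ → ℝ} {ν : ℕ} {η : ℝ}
    (h : IsProc p s ν η) (hη : 0 < η) (hmono : ∀ i j, i ≤ j → j < ν → mean p s j ≤ mean p s i)
    (α : ℝ) (hα : 0 < α) (i : ℕ) (hi : i < ν) (hai : mean p s i ≤ -α) :
    (ν : ℝ) - i ≤ 11 / α ^ 3 := by
  set s' : ι → ℕ → ℝ := fun ω k => -s ω (ν - 1 - k) with hs'
  have hmean : ∀ k, mean p s' k = -mean p s (ν - 1 - k) := by
    intro k
    unfold mean
    rw [← Finset.sum_neg_distrib]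
    refine Finset.sum_congr rfl fun ω _ => ?_
    rw [hs']
    ring
  have hcor : ∀ k l, cor p s' k l = cor p s (ν - 1 - l) (ν - 1 - k) := by
    intro k l
    unfold cor
    refine Finset.sum_congr rfl fun ω _ => ?_
    rw [hs']
    ring
  have hP' : IsProc p s' ν η := by
    refine ⟨h.p_nonneg, h.p_sum, ?_, ?_⟩
    · intro ω k
      show -s ω (ν - 1 - k) = 1 ∨ -s ω (ν - 1 - k) = -1
      rcases h.sign ω (ν - 1 - k) with h1 | h1 <;> rw [h1] <;> simp
    · intro k l hkl hl
      rw [hcor, hmean, hmean]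
      have := h.ineq (ν - 1 - l) (ν - 1 - k) (by omega) (by omega)
      linarith
  have hmono' : ∀ k l, k ≤ l → l < ν → mean p s' l ≤ mean p s' k := by
    intro k l hkl hl
    rw [hmean, hmean]
    have := hmono (ν - 1 - l) (ν - 1 - k) (by omega) (by omega)
    linarith
  have h1 := outer_pos hP' hη hmono' α hα (ν - 1 - i) (by omega) (by
    rw [hmean]
    have : ν - 1 - (ν - 1 - i) = i := by omega
    rw [this]
    linarith)
  have h2 : (((ν - 1 - i : ℕ) : ℝ) + 1) = (ν : ℝ) - i := by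
    have : ν - 1 - i + 1 = ν - i := by omega
    rw [← Nat.cast_sub hi.le, ← this]
    push_cast
    ring
  rw [h2] at h1
  exact h1

/-! ### smoothing -/

theorem sum_sub_last (m : ℕ → ℝ) (L : ℕ) :
    ∑ i ∈ range L, (m i - m L) = ∑ t ∈ range L, ((t : ℝ) + 1) * (m t - m (t + 1)) := by
  induction L with
  | zero => simp
  | succ L ih =>
    rw [Finset.sum_range_succ, Finset.sum_range_succ, ← ih]
    have : ∑ x ∈ range L, (m x - m (L + 1)) = ∑ x ∈ range L, (m x - m L) + L * (m L - m (L + 1)) := by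
      rw [Finset.sum_sub_distrib, Finset.sum_sub_distrib]
      simp only [Finset.sum_const, Finset.card_range, nsmul_eq_mul]
      ring
    rw [this]
    ring

theorem sum_pair_eq (m : ℕ → ℝ) (L : ℕ) :
    ∑ j ∈ range L, ∑ i ∈ range j, (m i - m j) =
      ∑ t ∈ range L, ((t : ℝ) + 1) * ((L : ℝ) - 1 - t) * (m t - m (t + 1)) := by
  induction L with
  | zero => simp
  | succ L ih =>
    rw [Finset.sum_range_succ, ih, sum_sub_last, Finset.sum_range_succ
      (fun t : ℕ => ((t : ℝ) + 1) * (((L + 1 : ℕ) : ℝ) - 1 - t) * (m t - m (t + 1)))]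
    have h1 : ((L : ℝ) + 1) * (((L + 1 : ℕ) : ℝ) - 1 - L) * (m L - m (L + 1)) = 0 := by
      push_cast
      ring
    rw [h1, add_zero, ← Finset.sum_add_distrib]
    refine Finset.sum_congr rfl fun t _ => ?_
    push_cast
    ring

theorem exists_antitone_proc {ι : Type} [Fintype ι] {p : ι → ℝ} {s : ι → ℕ → ℝ} {ν : ℕ} {η : ℝ}
    (h : IsProc p s ν η) (L : ℕ) (hL : 1 < η * ((L : ℝ) - 1)) (hL2 : 2 ≤ L) :
    ∃ (ι' : Type) (_ : Fintype ι') (p' : ι' → ℝ) (s' : ι' → ℕ → ℝ), IsProc p' s' (ν - L) η ∧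
      ∀ i j, i ≤ j → j < ν - L → mean p' s' j ≤ mean p' s' i := by
  set φ : ℕ → ℝ := fun t => ((t : ℝ) + 1) * ((L : ℝ) - 1 - t) with hφ
  have hφ0 : ∀ t, t < L → 0 ≤ φ t := by
    intro t ht
    have h1 : (t : ℝ) + 1 ≤ L := by exact_mod_cast ht
    have : 0 ≤ (L : ℝ) - 1 - t := by linarith
    rw [hφ]
    positivity
  set Φ := ∑ t ∈ range L, φ t with hΦ
  have hΦ0 : 0 < Φ := by
    rw [hΦ]
    refine Finset.sum_pos' (fun t ht => hφ0 t (Finset.mem_range.1 ht)) ⟨0, Finset.mem_range.2 (by omega), ?_⟩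
    rw [hφ]
    have : (2 : ℝ) ≤ L := by exact_mod_cast hL2
    simp only [Nat.cast_zero]
    nlinarith
  refine ⟨ι × Fin L, inferInstance, fun x => p x.1 * (φ x.2 / Φ), fun x i => s x.1 (i + x.2), ?_⟩
  have hsum : ∀ f : ι → ℕ → ℝ, ∑ x : ι × Fin L, p x.1 * (φ x.2 / Φ) * f x.1 x.2 =
      ∑ t ∈ range L, (φ t / Φ) * ∑ ω, p ω * f ω t := by
    intro f
    rw [Fintype.sum_prod_type, Finset.sum_comm, Finset.sum_range]
    refine Finset.sum_congr rfl fun t _ => ?_
    rw [Finset.mul_sum]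
    refine Finset.sum_congr rfl fun ω _ => ?_
    ring
  have hmean : ∀ i, mean (fun x : ι × Fin L => p x.1 * (φ x.2 / Φ)) (fun x i => s x.1 (i + x.2)) i =
      ∑ t ∈ range L, (φ t / Φ) * mean p s (i + t) := by
    intro i
    exact hsum (fun ω t => s ω (i + t))
  have hcor : ∀ i j, cor (fun x : ι × Fin L => p x.1 * (φ x.2 / Φ)) (fun x i => s x.1 (i + x.2)) i j =
      ∑ t ∈ range L, (φ t / Φ) * cor p s (i + t) (j + t) := by
    intro i j
    exact hsum (fun ω t => s ω (i + t) * s ω (j + t))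
  have hφΦ : ∑ t ∈ range L, φ t / Φ = 1 := by
    rw [← Finset.sum_div, ← hΦ, div_self hΦ0.ne']
  have hφΦ0 : ∀ t, t < L → 0 ≤ φ t / Φ := fun t ht => div_nonneg (hφ0 t ht) hΦ0.le
  refine ⟨⟨?_, ?_, ?_, ?_⟩, ?_⟩
  · intro x
    exact mul_nonneg (h.p_nonneg _) (hφΦ0 _ x.2.2)
  · have h1 := hsum (fun _ _ => 1)
    simp only [mul_one] at h1
    rw [h1, h.p_sum]
    simpa using hφΦ
  · intro x i
    exact h.sign _ _
  · intro i j hij hj
    rw [hcor, hmean, hmean]
    calc ∑ t ∈ range L, (φ t / Φ) * cor p s (i + t) (j + t)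
        ≤ ∑ t ∈ range L, (φ t / Φ) * (mean p s (i + t) - mean p s (j + t) - η) := by
          refine Finset.sum_le_sum fun t ht => ?_
          have ht' := Finset.mem_range.1 ht
          exact mul_le_mul_of_nonneg_left (h.ineq _ _ (by omega) (by omega)) (hφΦ0 t ht')
      _ = ∑ t ∈ range L, (φ t / Φ) * mean p s (i + t) - ∑ t ∈ range L, (φ t / Φ) * mean p s (j + t)
          - η * ∑ t ∈ range L, φ t / Φ := by
          rw [Finset.mul_sum, ← Finset.sum_sub_distrib, ← Finset.sum_sub_distrib]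
          refine Finset.sum_congr rfl fun t _ => by ring
      _ = _ := by rw [hφΦ, mul_one]
  · -- monotone
    have step : ∀ i, i + 1 < ν - L → mean (fun x : ι × Fin L => p x.1 * (φ x.2 / Φ))
        (fun x i => s x.1 (i + x.2)) (i + 1) ≤
        mean (fun x : ι × Fin L => p x.1 * (φ x.2 / Φ)) (fun x i => s x.1 (i + x.2)) i := by
      intro i hi
      rw [hmean, hmean, ← sub_nonneg, ← Finset.sum_sub_distrib]
      have h1 : ∑ t ∈ range L, (φ t / Φ * mean p s (i + t) - φ t / Φ * mean p s (i + 1 + t)) =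
          (1 / Φ) * ∑ j ∈ range L, ∑ i' ∈ range j, (mean p s (i + i') - mean p s (i + j)) := by
        rw [sum_pair_eq (fun k => mean p s (i + k)), Finset.mul_sum]
        refine Finset.sum_congr rfl fun t _ => ?_
        have : i + 1 + t = i + (t + 1) := by ring
        rw [this, hφ]
        ring
      rw [h1]
      have h2 := moment_le h i L (by omega)
      have h3 : 0 ≤ ∑ ω, p ω * (∑ k ∈ range L, s ω (i + k)) ^ 2 :=
        Finset.sum_nonneg fun ω _ => mul_nonneg (h.p_nonneg ω) (sq_nonneg _)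
      have hL0 : (0 : ℝ) < L := by
        have : (2 : ℝ) ≤ L := by exact_mod_cast hL2
        linarith
      have h4 : (L : ℝ) * 1 ≤ L * (η * ((L : ℝ) - 1)) := by gcongr
      have h5 : 0 ≤ ∑ j ∈ range L, ∑ i' ∈ range j, (mean p s (i + i') - mean p s (i + j)) := by
        nlinarith
      positivity
    intro i j hij
    induction j, hij using Nat.le_induction with
    | base => intro _; exact le_rfl
    | succ j hij ih =>
      intro hj
      exact le_trans (step j hj) (ih (by omega))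

end Pool.Agent.LibHelper37.Mac
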