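import Mathlib
import Pool.Agent.Lib_helper37.Mac.Minimax
import Pool.Agent.Lib_helper37.Mac.Smooth
import Pool.Agent.Lib_helper37.Mac.Epoch
import Pool.Agent.Lib_helper37.Mac.Inner

set_option autoImplicit false

namespace Pool.Agent.LibHelper37.Mac

open Finset Real

theorem upper {β κ₀ K : ℝ} (hβ : 0 < β) (hκ₀ : 0 < κ₀) (hK : π / (2 * β) < K)
    (hD : ∀ κ ρ, Design κ ρ → κ ≤ κ₀ → β * κ ^ 2 ≤ ρ) :
    ∃ η₀ > 0, ∀ η : ℝ, 0 < η → η < η₀ → ∀ ν : ℕ, 1 / 4 + η / 4 ∈ cSet ν →
      (ν : ℝ) ≤ K / √η ^ 3 := by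
  set K' := (π / (2 * β) + K) / 2 with hK'
  have hK'1 : π / (2 * β) < K' := by rw [hK']; linarith
  have hK'2 : K' < K := by rw [hK']; linarith
  have hKK : 0 < K - K' := by linarith
  -- choice of A
  set A := 1 + 44 / (K - K') with hA
  have hA1 : 1 ≤ A := by
    have : 0 < 44 / (K - K') := by positivity
    linarith
  have hA0 : 0 < A := by linarith
  have hA3 : 22 / A ^ 3 ≤ (K - K') / 2 := by
    have h1 : 44 / (K - K') ≤ A := by rw [hA]; linarith
    have h2 : A ≤ A ^ 3 := by nlinarith [mul_pos hA0 hA0]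
    rw [div_le_iff₀ (by positivity)]
    have h3 : 44 ≤ A ^ 3 * (K - K') := by
      have h4 : 44 / (K - K') ≤ A ^ 3 := le_trans h1 h2
      rwa [div_le_iff₀ hKK] at h4
    linarith
  obtain ⟨η₁, hη₁, hin⟩ := inner (κ₀ := κ₀) hβ hA1 hκ₀ hK'1
  refine ⟨min η₁ (min 1 (((K - K') / 10) ^ 2)), lt_min hη₁ (lt_min one_pos (by positivity)), ?_⟩
  intro η hη hηlt ν hmem
  have h1 : η < η₁ := lt_of_lt_of_le hηlt (min_le_left _ _)
  have h2 : η < 1 := lt_of_lt_of_le hηlt (le_trans (min_le_right _ _) (min_le_left _ _))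
  have h3 : η < ((K - K') / 10) ^ 2 :=
    lt_of_lt_of_le hηlt (le_trans (min_le_right _ _) (min_le_right _ _))
  set v := √η with hv
  have hv0 : 0 < v := Real.sqrt_pos.2 hη
  have hvη : v ^ 2 = η := Real.sq_sqrt hη.le
  have hv1 : v < 1 := by
    apply lt_of_pow_lt_pow_left₀ 2 zero_le_one
    rw [hvη]; linarith
  have hvK : v < (K - K') / 10 := by
    apply lt_of_pow_lt_pow_left₀ 2 (by positivity)
    rw [hvη]; exact h3
  rcases Nat.eq_zero_or_pos ν with h0 | hν
  · rw [h0]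
    have : 0 < K := lt_trans (by positivity) hK
    simp only [Nat.cast_zero]
    positivity
  obtain ⟨ι, hι, p, s, hP⟩ := exists_proc_of_mem hν hmem
  set L := ⌈1 / η⌉₊ + 2 with hL
  have hL1 : 1 / η ≤ (⌈1 / η⌉₊ : ℝ) := Nat.le_ceil _
  have hL2 : (⌈1 / η⌉₊ : ℝ) < 1 / η + 1 := Nat.ceil_lt_add_one (by positivity)
  have hLc : (L : ℝ) = (⌈1 / η⌉₊ : ℝ) + 2 := by rw [hL]; push_cast; ring
  have hLη : 1 < η * ((L : ℝ) - 1) := by
    have h4 : 1 / η + 1 ≤ (L : ℝ) - 1 := by rw [hLc]; linarith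
    have h5 : η * (1 / η + 1) ≤ η * ((L : ℝ) - 1) := by gcongr
    have h6 : η * (1 / η + 1) = 1 + η := by field_simp
    linarith
  obtain ⟨ι', hι', p', s', hP', hmono⟩ := exists_antitone_proc hP L hLη (by omega)
  set ν' := ν - L with hν'
  set M := ⌊11 / (A * v) ^ 3⌋₊ with hM
  have hAv : 0 < A * v := by positivity
  have hMle : (M : ℝ) ≤ 11 / (A * v) ^ 3 := Nat.floor_le (by positivity)
  have hpos : ∀ i, i < ν' → M ≤ i → mean p' s' i < A * v := by
    intro i hi hMi
    by_contra hcon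
    push Not at hcon
    have h4 := outer_pos hP' hη hmono (A * v) hAv i hi hcon
    have h5 : i + 1 ≤ M := by
      rw [hM]
      apply Nat.le_floor
      push_cast
      exact h4
    omega
  have hneg : ∀ i, i < ν' → i + M < ν' → -(A * v) < mean p' s' i := by
    intro i hi hMi
    by_contra hcon
    push Not at hcon
    have h4 := outer_neg hP' hη hmono (A * v) hAv i hi hcon
    have h5 : ν' - i ≤ M := by
      rw [hM]
      apply Nat.le_floor
      rw [Nat.cast_sub hi.le]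
      exact h4
    omega
  set n := ν' - 2 * M with hn
  have hinner : (n : ℝ) ≤ K' / v ^ 3 := by
    refine hin η hη h1 n (fun k => mean p' s' (M + k)) ?_ ?_ ?_
    · intro i j hij hj
      exact hmono _ _ (by omega) (by omega)
    · intro i hi
      rw [abs_le]
      exact ⟨(hneg (M + i) (by omega) (by omega)).le, (hpos (M + i) (by omega) (by omega)).le⟩
    · intro t N κ hN htN hκ hκ1 hκκ₀ hq
      have hdes := epoch_design hP' hmono (M + t) N hN (by omega) κ hκ hκ1 (by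
        intro i j h4 h5 h6 h7
        have h8 := hq (i - M) (j - M) (by omega) (by omega) (by omega) (by omega)
        have h9 : M + (i - M) = i := by omega
        have h10 : M + (j - M) = j := by omega
        simp only [h9, h10] at h8
        exact h8)
      have h4 := hD _ _ hdes (by nlinarith)
      have hidx : M + t + N - 1 = M + (t + N - 1) := by omega
      rw [hidx] at h4
      have hN0 : (0 : ℝ) < N := by exact_mod_cast hN
      have h5 : 0 < 1 - κ := by linarith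
      show N * (β * (1 - κ) * κ ^ 2) ≤ mean p' s' (M + t) - mean p' s' (M + (t + N - 1)) + κ
      set D := mean p' s' (M + t) - mean p' s' (M + (t + N - 1)) + κ with hDd
      have h6 : (1 - κ) * (β * (1 - κ) * κ ^ 2) ≤ (1 - κ) * (D / N) := by
        calc (1 - κ) * (β * (1 - κ) * κ ^ 2) = β * (κ * (1 - κ)) ^ 2 := by ring
          _ ≤ _ := h4
      have h7 := le_of_mul_le_mul_left h6 h5
      rw [le_div_iff₀ hN0] at h7
      linarith
  have hfin : ν ≤ n + 2 * M + L := by omega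
  have hfin' : (ν : ℝ) ≤ n + 2 * M + L := by exact_mod_cast hfin
  have hv3 : 0 < v ^ 3 := by positivity
  have h4 : 2 * (M : ℝ) ≤ ((K - K') / 2) / v ^ 3 := by
    calc 2 * (M : ℝ) ≤ 2 * (11 / (A * v) ^ 3) := by gcongr
      _ = (22 / A ^ 3) / v ^ 3 := by field_simp; norm_num
      _ ≤ ((K - K') / 2) / v ^ 3 := by gcongr
  have h5 : (L : ℝ) ≤ ((K - K') / 2) / v ^ 3 := by
    rw [le_div_iff₀ hv3]
    have h6 : (L : ℝ) ≤ 1 / v ^ 2 + 3 := by rw [hvη, hLc]; linarith
    calc (L : ℝ) * v ^ 3 ≤ (1 / v ^ 2 + 3) * v ^ 3 := by gcongr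
      _ = v + 3 * v ^ 3 := by field_simp
      _ ≤ (K - K') / 2 := by nlinarith [mul_pos hv0 hv0]
  have h6 : K / v ^ 3 = K' / v ^ 3 + ((K - K') / 2) / v ^ 3 + ((K - K') / 2) / v ^ 3 := by
    field_simp
    ring
  rw [h6]
  linarith

end Pool.Agent.LibHelper37.Mac
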