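import Mathlib
import Pool.Agent.Lib_helper37.Mac.Defs

set_option autoImplicit false

namespace Pool.Agent.LibHelper37.Mac

open Finset Real

/-! ## Block B6 (sine window) -/

/-- the sine window -/
noncomputable def b6psi (x : ℝ) (i : ℕ) : ℝ := sin (((i : ℝ) + 1 / 2) * x)

theorem b6_sum (x : ℝ) (L : ℕ) :
    2 * sin (x / 2) * ∑ i ∈ range L, b6psi x i = 1 - cos (L * x) := by
  induction L with
  | zero => simp
  | succ L ih =>
    rw [sum_range_succ, mul_add, ih]
    have h1 : cos (L * x) = cos (((L : ℝ) + 1 / 2) * x - x / 2) := by ring_nf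
    have h2 : cos (((L + 1 : ℕ) : ℝ) * x) = cos (((L : ℝ) + 1 / 2) * x + x / 2) := by
      push_cast; ring_nf
    rw [h1, h2, cos_sub, cos_add, b6psi]
    ring

theorem b6_sq (x : ℝ) (L : ℕ) :
    4 * sin x * ∑ i ∈ range L, b6psi x i ^ 2 = 2 * L * sin x - sin (2 * L * x) := by
  induction L with
  | zero => simp
  | succ L ih =>
    rw [sum_range_succ, mul_add, ih]
    have h1 : sin (2 * L * x) = sin ((2 * (((L : ℝ) + 1 / 2) * x)) - x) := by ring_nf
    have h2 : sin (2 * ((L + 1 : ℕ) : ℝ) * x) = sin ((2 * (((L : ℝ) + 1 / 2) * x)) + x) := by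
      push_cast; ring_nf
    rw [h1, h2, sin_sub, sin_add, cos_two_mul', b6psi]
    push_cast
    have h3 := sin_sq_add_cos_sq (((L : ℝ) + 1 / 2) * x)
    linear_combination (2 * sin x) * h3

theorem b6_W (x : ℝ) (L : ℕ) :
    4 * sin (x / 2) ^ 2 * ∑ i ∈ range L, ((L : ℝ) - i) * b6psi x i =
      (2 * L + 1) * sin (x / 2) - b6psi x L := by
  induction L with
  | zero =>
    simp [b6psi]
    ring_nf
  | succ L ih =>
    have e1 : ∑ i ∈ range (L + 1), (((L + 1 : ℕ) : ℝ) - i) * b6psi x i =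
        ∑ i ∈ range L, ((L : ℝ) - i) * b6psi x i + ∑ i ∈ range (L + 1), b6psi x i := by
      rw [sum_range_succ _ L, sum_range_succ _ L, ← add_assoc, ← sum_add_distrib]
      push_cast
      congr 1
      · exact sum_congr rfl fun i _ => by ring
      · ring
    rw [e1, mul_add, ih]
    have e2 := b6_sum x (L + 1)
    have h1 : b6psi x L = sin (((L : ℝ) + 1) * x - x / 2) := by rw [b6psi]; ring_nf
    have h2 : b6psi x (L + 1) = sin (((L : ℝ) + 1) * x + x / 2) := by
      rw [b6psi]; push_cast; ring_nf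
    rw [h1, h2, sin_sub, sin_add]
    push_cast at e2 ⊢
    linear_combination (2 * sin (x / 2)) * e2

theorem b6_T (x : ℝ) (L : ℕ) :
    2 * sin (x / 2) ^ 2 * ∑ i ∈ range L, ∑ j ∈ range L, |(i : ℝ) - j| * (b6psi x i * b6psi x j) =
      sin (x / 2) * ∑ i ∈ range L, (2 * (i : ℝ) + 1) * b6psi x i - ∑ i ∈ range L, b6psi x i ^ 2 := by
  induction L with
  | zero => simp
  | succ L ih =>
    have e1 : ∑ i ∈ range (L + 1), ∑ j ∈ range (L + 1), |(i : ℝ) - j| * (b6psi x i * b6psi x j) =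
        ∑ i ∈ range L, ∑ j ∈ range L, |(i : ℝ) - j| * (b6psi x i * b6psi x j) +
        2 * (b6psi x L * ∑ i ∈ range L, ((L : ℝ) - i) * b6psi x i) := by
      rw [sum_range_succ]
      have a1 : ∀ i ∈ range L, ∑ j ∈ range (L + 1), |(i : ℝ) - j| * (b6psi x i * b6psi x j) =
          ∑ j ∈ range L, |(i : ℝ) - j| * (b6psi x i * b6psi x j) +
          b6psi x L * (((L : ℝ) - i) * b6psi x i) := by
        intro i hi
        rw [sum_range_succ]
        have hi' : (i : ℝ) ≤ L := by exact_mod_cast (mem_range.mp hi).le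
        rw [abs_sub_comm, abs_of_nonneg (by linarith : (0 : ℝ) ≤ (L : ℝ) - i)]
        ring
      rw [sum_congr rfl a1, sum_add_distrib, sum_range_succ]
      have a2 : ∀ j ∈ range L, |(L : ℝ) - j| * (b6psi x L * b6psi x j) =
          b6psi x L * (((L : ℝ) - j) * b6psi x j) := by
        intro j hj
        have hj' : (j : ℝ) ≤ L := by exact_mod_cast (mem_range.mp hj).le
        rw [abs_of_nonneg (by linarith : (0 : ℝ) ≤ (L : ℝ) - j)]
        ring
      rw [sum_congr rfl a2, sub_self, abs_zero, zero_mul, add_zero, ← mul_sum]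
      ring
    rw [e1, mul_add, ih, sum_range_succ _ L, sum_range_succ _ L]
    have e2 := b6_W x L
    linear_combination (b6psi x L) * e2

/-- positive definiteness of autocorrelations -/
theorem b6_autoc (n L : ℕ) (c : ℕ → ℝ) (i j : ℕ) (hi : i < L) (hj : j < L) (hij : i ≤ j) :
    ∑ m ∈ range (n + L), (if i ≤ m ∧ m - i < n then c (m - i) else 0) *
      (if j ≤ m ∧ m - j < n then c (m - j) else 0) =
      ∑ k ∈ range (n - (j - i)), c k * c (k + (j - i)) := by
  have e1 : ∀ m ∈ range (n + L), (if i ≤ m ∧ m - i < n then c (m - i) else 0) *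
      (if j ≤ m ∧ m - j < n then c (m - j) else 0) =
      if j ≤ m ∧ m - i < n then c (m - j) * c (m - i) else 0 := by
    intro m _
    by_cases h1 : j ≤ m ∧ m - i < n
    · rw [if_pos h1, if_pos ⟨hij.trans h1.1, h1.2⟩, if_pos ⟨h1.1, by omega⟩, mul_comm]
    · rw [if_neg h1]
      by_cases h2 : i ≤ m ∧ m - i < n
      · rw [if_neg (show ¬ (j ≤ m ∧ m - j < n) from fun h3 => h1 ⟨h3.1, h2.2⟩), mul_zero]
      · rw [if_neg h2, zero_mul]
  rw [sum_congr rfl e1, ← sum_filter]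
  refine sum_nbij' (fun m => m - j) (fun k => k + j) ?_ ?_ ?_ ?_ ?_
  · intro m hm
    rw [mem_filter, mem_range] at hm
    rw [mem_range]
    omega
  · intro k hk
    rw [mem_range] at hk
    rw [mem_filter, mem_range]
    omega
  · intro m hm
    rw [mem_filter, mem_range] at hm
    omega
  · intro k hk
    omega
  · intro m hm
    rw [mem_filter, mem_range] at hm
    congr 2
    omega

theorem b6_pos (m n L : ℕ) (c : ℕ → ℕ → ℝ) (ψ : ℕ → ℝ) :
    0 ≤ ∑ i ∈ range L, ∑ j ∈ range L, ψ i * ψ j * autoc m n c (Nat.dist i j) := by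
  have key : ∑ i ∈ range L, ∑ j ∈ range L, ψ i * ψ j * autoc m n c (Nat.dist i j) =
      ∑ ω ∈ range m, ∑ u ∈ range (n + L),
        (∑ i ∈ range L, ψ i * (if i ≤ u ∧ u - i < n then c ω (u - i) else 0)) ^ 2 := by
    have h1 : ∀ i ∈ range L, ∀ j ∈ range L, ψ i * ψ j * autoc m n c (Nat.dist i j) =
        ∑ ω ∈ range m, ∑ u ∈ range (n + L),
          (ψ i * (if i ≤ u ∧ u - i < n then c ω (u - i) else 0)) *
          (ψ j * (if j ≤ u ∧ u - j < n then c ω (u - j) else 0)) := by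
      intro i hi j hj
      rw [mem_range] at hi hj
      unfold autoc
      rw [mul_sum]
      refine sum_congr rfl fun ω _ => ?_
      rcases le_total i j with hij | hij
      · rw [Nat.dist_eq_sub_of_le hij, ← b6_autoc n L (c ω) i j hi hj hij, mul_sum]
        exact sum_congr rfl fun u _ => by ring
      · rw [Nat.dist_eq_sub_of_le_right hij, ← b6_autoc n L (c ω) j i hj hi hij, mul_sum]
        exact sum_congr rfl fun u _ => by ring
    rw [sum_congr rfl fun i hi => sum_congr rfl fun j hj => h1 i hi j hj]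
    have h2 : ∀ ω ∈ range m, ∀ u ∈ range (n + L),
        (∑ i ∈ range L, ψ i * (if i ≤ u ∧ u - i < n then c ω (u - i) else 0)) ^ 2 =
        ∑ i ∈ range L, ∑ j ∈ range L,
          (ψ i * (if i ≤ u ∧ u - i < n then c ω (u - i) else 0)) *
          (ψ j * (if j ≤ u ∧ u - j < n then c ω (u - j) else 0)) := by
      intro ω _ u _
      rw [sq, sum_mul_sum]
    rw [sum_congr rfl fun ω hω => sum_congr rfl fun u hu => h2 ω hω u hu]
    rw [sum_congr rfl fun i hi => sum_comm]
    rw [sum_comm]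
    refine sum_congr rfl fun ω _ => ?_
    rw [sum_congr rfl fun i hi => sum_comm]
    rw [sum_comm]
  rw [key]
  exact sum_nonneg fun ω _ => sum_nonneg fun u _ => sq_nonneg _

theorem design_ge {κ ρ : ℝ} (h : Design κ ρ) (L : ℕ) (hL : 2 ≤ L) :
    4 * κ / L - π ^ 2 / (2 * (L : ℝ) ^ 2) ≤ ρ := by
  obtain ⟨hκ, m, n, c, h0, ht⟩ := h
  have hL0 : (0 : ℝ) < L := by exact_mod_cast (by omega : 0 < L)
  have hL2 : (2 : ℝ) ≤ L := by exact_mod_cast hL
  set x : ℝ := π / L with hx
  have hx0 : 0 < x := div_pos pi_pos hL0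
  have hxL : L * x = π := by rw [hx]; field_simp
  have hxpi : x < π := by
    rw [hx, div_lt_iff₀ hL0]
    nlinarith [pi_pos]
  have hs : 0 < sin (x / 2) := sin_pos_of_pos_of_lt_pi (by linarith) (by linarith)
  have hsx : 0 < sin x := sin_pos_of_pos_of_lt_pi hx0 hxpi
  set s := sin (x / 2) with hsdef
  have hψ0 : ∀ i < L, 0 ≤ b6psi x i := by
    intro i hi
    have hi' : (i : ℝ) + 1 ≤ L := by exact_mod_cast hi
    refine sin_nonneg_of_nonneg_of_le_pi (by positivity) ?_
    rw [← hxL]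
    exact mul_le_mul_of_nonneg_right (by linarith) hx0.le
  -- the sums
  have S1 : s * ∑ i ∈ range L, b6psi x i = 1 := by
    have := b6_sum x L
    rw [hxL, cos_pi] at this
    linarith
  have S2 : ∑ i ∈ range L, b6psi x i ^ 2 = L / 2 := by
    have := b6_sq x L
    rw [show 2 * (L : ℝ) * x = 2 * π by rw [← hxL]; ring, sin_two_pi, sub_zero] at this
    have h4 : sin x * (∑ i ∈ range L, b6psi x i ^ 2 - L / 2) = 0 := by linarith
    rcases mul_eq_zero.mp h4 with h5 | h5
    · exact absurd h5 hsx.ne'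
    · linarith
  have S3 : ∑ i ∈ range L, (2 * (i : ℝ) + 1) * b6psi x i = L * ∑ i ∈ range L, b6psi x i := by
    have hrefl := sum_range_reflect (fun i => (2 * (i : ℝ) + 1) * b6psi x i) L
    have h5 : ∑ j ∈ range L, (2 * ((L - 1 - j : ℕ) : ℝ) + 1) * b6psi x (L - 1 - j) =
        ∑ j ∈ range L, (2 * (L : ℝ) - (2 * (j : ℝ) + 1)) * b6psi x j := by
      refine sum_congr rfl fun j hj => ?_
      rw [mem_range] at hj
      have hc : ((L - 1 - j : ℕ) : ℝ) = (L : ℝ) - 1 - j := by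
        rw [Nat.cast_sub (by omega), Nat.cast_sub (by omega)]
        simp
      have hp : b6psi x (L - 1 - j) = b6psi x j := by
        rw [b6psi, b6psi, hc, ← sin_pi_sub]
        congr 1
        rw [← hxL]
        ring
      rw [hp, hc]
      ring
    rw [h5] at hrefl
    have h6 : ∑ j ∈ range L, (2 * (L : ℝ) - (2 * (j : ℝ) + 1)) * b6psi x j =
        2 * L * ∑ i ∈ range L, b6psi x i - ∑ i ∈ range L, (2 * (i : ℝ) + 1) * b6psi x i := by
      rw [mul_sum, ← sum_sub_distrib]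
      exact sum_congr rfl fun j _ => by ring
    rw [h6] at hrefl
    linarith
  have S4 : 4 * s ^ 2 *
      ∑ i ∈ range L, ∑ j ∈ range L, |(i : ℝ) - j| * (b6psi x i * b6psi x j) = L := by
    have := b6_T x L
    rw [S3, S2] at this
    have h7 : s * (L * ∑ i ∈ range L, b6psi x i) = L := by
      rw [mul_left_comm, S1, mul_one]
    rw [h7] at this
    linarith
  -- main inequality
  have P := b6_pos m n L c (b6psi x)
  have U : ∑ i ∈ range L, ∑ j ∈ range L, b6psi x i * b6psi x j * autoc m n c (Nat.dist i j) ≤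
      ∑ i ∈ range L, ∑ j ∈ range L, (ρ * (|(i : ℝ) - j| * (b6psi x i * b6psi x j)) -
        κ * (b6psi x i * b6psi x j) + if i = j then b6psi x i * b6psi x j else 0) := by
    refine sum_le_sum fun i hi => sum_le_sum fun j hj => ?_
    rw [mem_range] at hi hj
    have hnn : 0 ≤ b6psi x i * b6psi x j := mul_nonneg (hψ0 i hi) (hψ0 j hj)
    by_cases hij : i = j
    · subst hij
      rw [Nat.dist_self, sub_self, abs_zero, if_pos rfl]
      have := mul_le_mul_of_nonneg_left h0 hnn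
      linarith
    · rw [if_neg hij]
      have hd : 1 ≤ Nat.dist i j := by
        have := Nat.dist_pos_of_ne hij
        omega
      have h8 := ht (Nat.dist i j) hd
      have hdc : ((Nat.dist i j : ℕ) : ℝ) = |(i : ℝ) - j| := by
        rcases le_total i j with hle | hle
        · rw [Nat.dist_eq_sub_of_le hle, Nat.cast_sub hle, abs_sub_comm,
            abs_of_nonneg (sub_nonneg.mpr (by exact_mod_cast hle))]
        · rw [Nat.dist_eq_sub_of_le_right hle, Nat.cast_sub hle,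
            abs_of_nonneg (sub_nonneg.mpr (by exact_mod_cast hle))]
      rw [hdc] at h8
      have := mul_le_mul_of_nonneg_left h8 hnn
      linarith
  have V : ∑ i ∈ range L, ∑ j ∈ range L, (ρ * (|(i : ℝ) - j| * (b6psi x i * b6psi x j)) -
        κ * (b6psi x i * b6psi x j) + if i = j then b6psi x i * b6psi x j else 0) =
      ρ * (∑ i ∈ range L, ∑ j ∈ range L, |(i : ℝ) - j| * (b6psi x i * b6psi x j)) -
      κ * (∑ i ∈ range L, b6psi x i) ^ 2 + ∑ i ∈ range L, b6psi x i ^ 2 := by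
    rw [sq, sum_mul_sum]
    simp only [sum_add_distrib, sum_sub_distrib, mul_sum]
    congr 1
    refine sum_congr rfl fun i hi => ?_
    rw [sum_ite_eq, if_pos hi, sq]
  rw [V, S2] at U
  have hs2 : 0 < s ^ 2 := by positivity
  -- multiply by `s ^ 2`
  have W : 0 ≤ s ^ 2 * (ρ * (∑ i ∈ range L, ∑ j ∈ range L,
      |(i : ℝ) - j| * (b6psi x i * b6psi x j)) -
      κ * (∑ i ∈ range L, b6psi x i) ^ 2 + L / 2) := mul_nonneg hs2.le (P.trans U)
  have W2 : s ^ 2 * (ρ * (∑ i ∈ range L, ∑ j ∈ range L,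
      |(i : ℝ) - j| * (b6psi x i * b6psi x j)) -
      κ * (∑ i ∈ range L, b6psi x i) ^ 2 + L / 2) = ρ * L / 4 - κ + s ^ 2 * L / 2 := by
    have h9 : s ^ 2 * (∑ i ∈ range L, b6psi x i) ^ 2 = 1 := by
      rw [← mul_pow, S1, one_pow]
    linear_combination (ρ / 4) * S4 - κ * h9
  rw [W2] at W
  have hsle : s ≤ x / 2 := sin_le (by linarith)
  have hs2le : s ^ 2 ≤ (x / 2) ^ 2 := by nlinarith
  have hx2 : (x / 2) ^ 2 * L / 2 = π ^ 2 / (8 * L) := by
    rw [hx]; field_simp; ring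
  have hfin : 0 ≤ ρ * L / 4 - κ + π ^ 2 / (8 * L) := by
    rw [← hx2]
    nlinarith
  have hq : ρ * L / 4 - κ + π ^ 2 / (8 * L) =
      (L / 4) * (ρ - (4 * κ / L - π ^ 2 / (2 * (L : ℝ) ^ 2))) := by
    field_simp
    ring
  rw [hq] at hfin
  have := nonneg_of_mul_nonneg_right hfin (by positivity)
  linarith

theorem design_ge_small {ε : ℝ} (hε : 0 < ε) :
    ∃ κ₀ > 0, ∀ κ ρ, Design κ ρ → κ ≤ κ₀ → (8 / π ^ 2 - ε) * κ ^ 2 ≤ ρ := by
  refine ⟨min 1 ε, lt_min one_pos hε, fun κ ρ h hκ₀ => ?_⟩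
  have hκ : 0 < κ := h.1
  have hκ1 : κ ≤ 1 := hκ₀.trans (min_le_left _ _)
  have hκε : κ ≤ ε := hκ₀.trans (min_le_right _ _)
  have hπ3 : (3 : ℝ) < π := pi_gt_three
  set y : ℝ := π ^ 2 / (4 * κ) with hy
  have hy2 : 9 / 4 ≤ y := by
    rw [hy, le_div_iff₀ (by positivity)]
    nlinarith
  have hy0 : 0 < y := by linarith
  set L := ⌈y⌉₊ with hLdef
  have hyL : y ≤ L := Nat.le_ceil y
  have hLy : (L : ℝ) < y + 1 := Nat.ceil_lt_add_one hy0.le
  have hL2 : 2 ≤ L := by
    have : (2 : ℝ) < L := by linarith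
    exact_mod_cast this.le
  have hL0 : (0 : ℝ) < L := by linarith
  have h1 := design_ge h L hL2
  refine le_trans ?_ h1
  -- f = 8 κ^2/π^2 - (π^2/2) (1/L - 1/y)^2
  have e1 : 4 * κ / L - π ^ 2 / (2 * (L : ℝ) ^ 2) =
      8 / π ^ 2 * κ ^ 2 - π ^ 2 / 2 * (1 / L - 1 / y) ^ 2 := by
    rw [hy]
    field_simp
    ring
  have h2 : |1 / (L : ℝ) - 1 / y| ≤ 1 / y ^ 2 := by
    rw [abs_sub_comm, abs_of_nonneg (sub_nonneg.mpr (one_div_le_one_div_of_le hy0 hyL)),
      div_sub_div _ _ hy0.ne' hL0.ne', div_le_div_iff₀ (by positivity) (by positivity)]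
    nlinarith
  have h3 : (1 / (L : ℝ) - 1 / y) ^ 2 ≤ (1 / y ^ 2) ^ 2 := by
    rw [← sq_abs]
    exact pow_le_pow_left₀ (abs_nonneg _) h2 2
  have h4 : π ^ 2 / 2 * (1 / y ^ 2) ^ 2 = 128 * κ ^ 4 / π ^ 6 := by
    rw [hy]
    field_simp
    ring
  have h5 : 128 * κ ^ 4 / π ^ 6 ≤ ε * κ ^ 2 := by
    have hp6 : (729 : ℝ) ≤ π ^ 6 := by
      have : (3 : ℝ) ^ 6 ≤ π ^ 6 := pow_le_pow_left₀ (by norm_num) hπ3.le 6
      norm_num at this
      exact this
    rw [div_le_iff₀ (by positivity)]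
    have h6 : κ ^ 2 ≤ ε := by nlinarith
    have h7 : 128 * κ ^ 4 ≤ 128 * (ε * κ ^ 2) := by nlinarith [sq_nonneg κ]
    have h8 : 0 ≤ ε * κ ^ 2 := by positivity
    nlinarith
  rw [e1]
  have hπ2 : 0 < π ^ 2 / 2 := by positivity
  nlinarith [mul_le_mul_of_nonneg_left h3 hπ2.le]

end Pool.Agent.LibHelper37.Mac
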