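import Mathlib
import Pool.Agent.Lib_helper37.Mac.Upper
import Pool.Agent.Lib_helper37.Mac.Choice
import Pool.Agent.Lib_helper37.Mac.Window
import Pool.Agent.Lib_helper37.Mac.Numeric
import Pool.Agent.Lib_helper36.Mac.B8bc

set_option autoImplicit false

namespace Pool.Agent.LibHelper37.Mac

open Finset Real

theorem autoc_zero_of_le (m n : ℕ) (c : ℕ → ℕ → ℝ) {t : ℕ} (ht : n ≤ t) : autoc m n c t = 0 := by
  unfold autoc
  have : n - t = 0 := by omega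
  simp [this]

theorem Design.rho_pos {κ ρ : ℝ} (h : Design κ ρ) : 0 < ρ := by
  obtain ⟨hκ, m, n, c, _, h2⟩ := h
  have h3 := h2 (max n 1) (le_max_right _ _)
  rw [autoc_zero_of_le m n c (le_max_left _ _)] at h3
  have h4 : (0 : ℝ) < ((max n 1 : ℕ) : ℝ) := by
    have : 0 < max n 1 := lt_of_lt_of_le one_pos (le_max_right _ _)
    exact_mod_cast this
  by_contra hcon
  push Not at hcon
  nlinarith

theorem lower {κ ρ K : ℝ} (h : Design κ ρ) (hK : K < π / 2 * (κ ^ 2 / ρ)) :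
    ∃ η₀ > 0, ∀ η : ℝ, 0 < η → η < η₀ → ∀ ν : ℕ, (ν : ℝ) ≤ K / √η ^ 3 →
      1 / 4 + η / 4 ∈ cSet ν := by
  have hρ := h.rho_pos
  obtain ⟨hκ, m, n, c, h1, h2⟩ := h
  have hG : ∀ t, |autoc m n c t| ≤ ∑ t' ∈ range n, |autoc m n c t'| := by
    intro t
    by_cases ht : t < n
    · exact Finset.single_le_sum (f := fun t' => |autoc m n c t'|) (fun i _ => abs_nonneg _)
        (Finset.mem_range.2 ht)
    · rw [autoc_zero_of_le m n c (not_lt.1 ht), abs_zero]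
      exact Finset.sum_nonneg fun i _ => abs_nonneg _
  have hS : 0 ≤ ∑ ω ∈ range m, ∑ k ∈ range n, |c ω k| :=
    Finset.sum_nonneg fun i _ => Finset.sum_nonneg fun j _ => abs_nonneg _
  obtain ⟨η₀, hη₀, H⟩ := exists_blocks (γ := autoc m n c) hκ hρ h1 h2 hG hS hK
  refine ⟨η₀, hη₀, ?_⟩
  intro η hη hlt ν hν
  obtain ⟨T, ℓ, a, g1, g2, g3, g4, g5⟩ := H η hη hlt
  refine Pool.Agent.LibHelper36.Mac.mem_cSet_of_blocks_proof T ℓ a m n c hη.le g1 g2 g3 g4 ν ?_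
  have : (ν : ℝ) ≤ ∑ b ∈ range T, (ℓ b : ℝ) := le_trans hν g5
  exact_mod_cast this

/-! ### the extremal constant -/

theorem design_beta_ge {κ ρ : ℝ} (h : Design κ ρ) : 8 / π ^ 2 ≤ ρ / κ ^ 2 := by
  have hρ := h.rho_pos
  have hκ : 0 < κ := h.1
  by_contra hcon
  push Not at hcon
  set b := ρ / κ ^ 2 with hb
  have hb0 : 0 < b := by positivity
  set ε := (8 / π ^ 2 - b) / 2 with hε
  have hε0 : 0 < ε := by rw [hε]; linarith
  set β := 8 / π ^ 2 - ε with hβ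
  have hβb : b < β := by rw [hβ, hε]; linarith
  have hβ0 : 0 < β := lt_trans hb0 hβb
  obtain ⟨κ₀, hκ₀, hD⟩ := design_ge_small hε0
  have hπ := pi_pos
  have hlt : π / (2 * β) < π / (2 * b) := by
    apply div_lt_div_of_pos_left hπ (by positivity)
    linarith
  obtain ⟨K₁, hK₁, hK₁'⟩ := exists_between hlt
  obtain ⟨K₂, hK₂, hK₂'⟩ := exists_between hK₁'
  obtain ⟨η₁, hη₁, U⟩ := upper hβ0 hκ₀ hK₁ hD
  have e : π / 2 * (κ ^ 2 / ρ) = π / (2 * b) := by rw [hb]; field_simp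
  obtain ⟨η₂, hη₂, Lw⟩ := lower h (K := K₂) (by rw [e]; exact hK₂')
  have hd : 0 < K₂ - K₁ := by linarith
  set η := min (min (η₁ / 2) (η₂ / 2)) (min (1 / 2) ((K₂ - K₁) ^ 2 / 2)) with hη
  have hη0 : 0 < η := by
    refine lt_min (lt_min (by linarith) (by linarith)) (lt_min (by norm_num) (by positivity))
  have h1 : η < η₁ := lt_of_le_of_lt (le_trans (min_le_left _ _) (min_le_left _ _)) (by linarith)
  have h2 : η < η₂ := lt_of_le_of_lt (le_trans (min_le_left _ _) (min_le_right _ _)) (by linarith)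
  have h3 : η < 1 := lt_of_le_of_lt (le_trans (min_le_right _ _) (min_le_left _ _)) (by norm_num)
  have h4 : η < (K₂ - K₁) ^ 2 :=
    lt_of_le_of_lt (le_trans (min_le_right _ _) (min_le_right _ _)) (by nlinarith [sq_pos_of_pos hd])
  set v := √η with hv
  have hv0 : 0 < v := Real.sqrt_pos.2 hη0
  have hvη : v ^ 2 = η := Real.sq_sqrt hη0.le
  have hv1 : v < 1 := by
    apply lt_of_pow_lt_pow_left₀ 2 zero_le_one
    rw [hvη]; linarith
  have hvd : v < K₂ - K₁ := by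
    apply lt_of_pow_lt_pow_left₀ 2 hd.le
    rw [hvη]; exact h4
  have hv3 : v ^ 3 ≤ v := by nlinarith [mul_pos hv0 hv0]
  have hK₁0 : 0 < K₁ := lt_trans (by positivity) hK₁
  have hK₂0 : 0 < K₂ := lt_trans hK₁0 hK₂
  have h5 := Lw η hη0 h2 ⌊K₂ / v ^ 3⌋₊ (Nat.floor_le (by positivity))
  have h6 := U η hη0 h1 _ h5
  have h7 : K₂ / v ^ 3 - 1 < (⌊K₂ / v ^ 3⌋₊ : ℝ) := by
    have := Nat.lt_floor_add_one (K₂ / v ^ 3)
    linarith
  have h8 : K₂ / v ^ 3 - 1 < K₁ / v ^ 3 := lt_of_lt_of_le h7 h6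
  have h9 : (K₂ - K₁) / v ^ 3 < 1 := by
    rw [sub_div]; linarith
  rw [div_lt_one (by positivity)] at h9
  linarith

theorem design_beta_mem_bdd : BddBelow {β | ∃ κ ρ, Design κ ρ ∧ β = ρ / κ ^ 2} := by
  refine ⟨8 / π ^ 2, ?_⟩
  rintro β ⟨κ, ρ, h, rfl⟩
  exact design_beta_ge h

theorem betaStar_ge : 8 / π ^ 2 ≤ betaStar := by
  apply le_csInf
  · exact ⟨_, _, _, numeric_design, rfl⟩
  · rintro β ⟨κ, ρ, h, rfl⟩
    exact design_beta_ge h

theorem betaStar_pos : 0 < betaStar := lt_of_lt_of_le (by have := pi_pos; positivity) betaStar_ge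

theorem betaStar_le : betaStar ≤ 8124 / 10000 := by
  have h := csInf_le design_beta_mem_bdd ⟨_, _, numeric_design, rfl⟩
  refine le_trans h (le_of_eq ?_)
  norm_num

theorem betaStar_mul_le {κ ρ : ℝ} (h : Design κ ρ) : betaStar * κ ^ 2 ≤ ρ := by
  have hκ : 0 < κ := h.1
  have h1 : betaStar ≤ ρ / κ ^ 2 := csInf_le design_beta_mem_bdd ⟨κ, ρ, h, rfl⟩
  rwa [le_div_iff₀ (by positivity)] at h1

/-! ### consequences for `cConst` -/

theorem total_nonneg {V : Type} [Fintype V] (D : WDigraph V) : 0 ≤ D.total :=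
  Finset.sum_nonneg fun _ _ => Finset.sum_nonneg fun _ _ => D.w_nonneg _ _

theorem cSet_downward {ν : ℕ} {c c' : ℝ} (hc : c ∈ cSet ν) (h0 : 0 ≤ c') (h : c' ≤ c) :
    c' ∈ cSet ν := by
  refine ⟨h0, ?_⟩
  intro V _ _ D hac hmax
  refine le_trans ?_ (hc.2 V D hac hmax)
  exact mul_le_mul_of_nonneg_right h (total_nonneg D)

theorem zero_mem_cSet (ν : ℕ) : (0 : ℝ) ∈ cSet ν := by
  refine ⟨le_rfl, fun V _ _ D _ _ => ?_⟩
  rw [zero_mul]
  refine le_trans (le_of_eq ?_) (Finset.le_sup' D.cut (Finset.mem_univ (∅ : Finset V)))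
  simp [WDigraph.cut]

/-- the substitution `η = (K / ν)^(2/3)` -/
theorem sqrt_cube {K : ℝ} (hK : 0 < K) {ν : ℕ} (hν : 0 < ν) :
    √((K / ν) ^ (2 / 3 : ℝ)) ^ 3 = K / ν := by
  have hν0 : (0 : ℝ) < ν := by exact_mod_cast hν
  have h0 : 0 < K / ν := by positivity
  rw [Real.sqrt_eq_rpow, ← Real.rpow_mul h0.le, ← Real.rpow_natCast, ← Real.rpow_mul h0.le]
  norm_num

theorem tendsto_eta (K : ℝ) (hK : 0 < K) :
    Filter.Tendsto (fun ν : ℕ => (K / (ν : ℝ)) ^ (2 / 3 : ℝ)) Filter.atTop (nhds 0) := by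
  have h1 : Filter.Tendsto (fun ν : ℕ => K / (ν : ℝ)) Filter.atTop (nhds 0) :=
    tendsto_const_div_atTop_nhds_zero_nat K
  have h2 := h1.rpow_const (p := (2 / 3 : ℝ)) (Or.inr (by norm_num))
  rwa [Real.zero_rpow (by norm_num)] at h2

theorem upper_eventually {K : ℝ} (hK : π / (2 * betaStar) < K) :
    ∀ᶠ ν : ℕ in Filter.atTop, ∀ c ∈ cSet ν, c ≤ 1 / 4 + (K / (ν : ℝ)) ^ (2 / 3 : ℝ) / 4 := by
  obtain ⟨K', hK', hK''⟩ := exists_between hK
  have hb := betaStar_pos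
  have hK'0 : 0 < K' := lt_trans (by have := pi_pos; positivity) hK'
  have hK0 : 0 < K := lt_trans hK'0 hK''
  obtain ⟨η₀, hη₀, U⟩ := upper (κ₀ := 1) betaStar_pos one_pos hK' (fun κ ρ h _ => betaStar_mul_le h)
  filter_upwards [(tendsto_eta K hK0).eventually_lt_const hη₀, Filter.eventually_gt_atTop 0]
    with ν h1 hν c hc
  by_contra hcon
  push Not at hcon
  have hν0 : (0 : ℝ) < ν := by exact_mod_cast hν
  have hη0 : 0 < (K / (ν : ℝ)) ^ (2 / 3 : ℝ) := by positivity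
  have h2 := U _ hη0 h1 ν (cSet_downward hc (by positivity) hcon.le)
  rw [sqrt_cube hK0 hν, div_div_eq_mul_div, le_div_iff₀ hK0] at h2
  nlinarith

theorem lower_eventually {K : ℝ} (hK0 : 0 < K) (hK : K < π / (2 * betaStar)) :
    ∀ᶠ ν : ℕ in Filter.atTop, 1 / 4 + (K / (ν : ℝ)) ^ (2 / 3 : ℝ) / 4 ∈ cSet ν := by
  have hb := betaStar_pos
  have hlt : betaStar < π / (2 * K) := by
    rw [lt_div_iff₀ (by positivity)] at hK ⊢
    linarith
  obtain ⟨β, ⟨κ, ρ, hD, rfl⟩, hβ⟩ := exists_lt_of_csInf_lt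
    (s := {β | ∃ κ ρ, Design κ ρ ∧ β = ρ / κ ^ 2}) ⟨_, _, _, numeric_design, rfl⟩ hlt
  have hρ := hD.rho_pos
  have hκ : 0 < κ := hD.1
  have hK2 : K < π / 2 * (κ ^ 2 / ρ) := by
    rw [div_lt_div_iff₀ (by positivity) (by positivity)] at hβ
    rw [← mul_div_assoc, lt_div_iff₀ hρ]
    linarith
  obtain ⟨η₀, hη₀, Lw⟩ := lower hD hK2
  filter_upwards [(tendsto_eta K hK0).eventually_lt_const hη₀, Filter.eventually_gt_atTop 0]
    with ν h1 hν
  have hν0 : (0 : ℝ) < ν := by exact_mod_cast hν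
  refine Lw _ (by positivity) h1 ν ?_
  rw [sqrt_cube hK0 hν]
  apply le_of_eq
  field_simp

theorem scaled_eq {K : ℝ} (hK : 0 < K) {ν : ℕ} (hν : 0 < ν) :
    (K / (ν : ℝ)) ^ (2 / 3 : ℝ) / 4 * (ν : ℝ) ^ (2 / 3 : ℝ) = K ^ (2 / 3 : ℝ) / 4 := by
  have hν0 : (0 : ℝ) < ν := by exact_mod_cast hν
  rw [Real.div_rpow hK.le hν0.le]
  have : (ν : ℝ) ^ (2 / 3 : ℝ) ≠ 0 := by positivity
  field_simp

theorem main_tendsto :
    Filter.Tendsto (fun ν : ℕ => (cConst ν - 1 / 4) * (ν : ℝ) ^ (2 / 3 : ℝ)) Filter.atTop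
      (nhds ((π / (2 * betaStar)) ^ (2 / 3 : ℝ) / 4)) := by
  have hb := betaStar_pos
  have hπ := pi_pos
  set Ks := π / (2 * betaStar) with hKs
  have hKs0 : 0 < Ks := by positivity
  have hcont : ContinuousAt (fun K : ℝ => K ^ (2 / 3 : ℝ) / 4) Ks := by
    apply ContinuousAt.div_const
    exact Real.continuousAt_rpow_const _ _ (Or.inl hKs0.ne')
  rw [tendsto_order]
  constructor
  · intro a ha
    have h1 : ∀ᶠ K in nhds Ks, a < K ^ (2 / 3 : ℝ) / 4 := hcont.eventually_const_lt ha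
    have h2 : ∀ᶠ K in nhds Ks, 0 < K := eventually_gt_nhds hKs0
    have h3 : ∀ᶠ K in nhdsWithin Ks (Set.Iio Ks), a < K ^ (2 / 3 : ℝ) / 4 ∧ 0 < K ∧ K < Ks := by
      filter_upwards [nhdsWithin_le_nhds h1, nhdsWithin_le_nhds h2, self_mem_nhdsWithin]
        with K g1 g2 g3
      exact ⟨g1, g2, g3⟩
    obtain ⟨K, hKa, hK0, hKlt⟩ := h3.exists
    filter_upwards [lower_eventually hK0 hKlt, upper_eventually (lt_add_one Ks),
      Filter.eventually_gt_atTop 0] with ν h4 h5 hν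
    have hν0 : (0 : ℝ) < ν := by exact_mod_cast hν
    have h6 : 1 / 4 + (K / (ν : ℝ)) ^ (2 / 3 : ℝ) / 4 ≤ cConst ν := le_csSup ⟨_, h5⟩ h4
    have h7 : K ^ (2 / 3 : ℝ) / 4 ≤ (cConst ν - 1 / 4) * (ν : ℝ) ^ (2 / 3 : ℝ) := by
      rw [← scaled_eq hK0 hν]
      have : 0 < (ν : ℝ) ^ (2 / 3 : ℝ) := by positivity
      gcongr
      linarith
    linarith
  · intro a ha
    have h1 : ∀ᶠ K in nhds Ks, K ^ (2 / 3 : ℝ) / 4 < a := hcont.eventually_lt_const ha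
    have h3 : ∀ᶠ K in nhdsWithin Ks (Set.Ioi Ks), K ^ (2 / 3 : ℝ) / 4 < a ∧ Ks < K := by
      filter_upwards [nhdsWithin_le_nhds h1, self_mem_nhdsWithin] with K g1 g3
      exact ⟨g1, g3⟩
    obtain ⟨K, hKa, hKlt⟩ := h3.exists
    have hK0 : 0 < K := lt_trans hKs0 hKlt
    filter_upwards [upper_eventually hKlt, Filter.eventually_gt_atTop 0] with ν h5 hν
    have hν0 : (0 : ℝ) < ν := by exact_mod_cast hν
    have h6 : cConst ν ≤ 1 / 4 + (K / (ν : ℝ)) ^ (2 / 3 : ℝ) / 4 :=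
      csSup_le ⟨0, zero_mem_cSet ν⟩ h5
    have h7 : (cConst ν - 1 / 4) * (ν : ℝ) ^ (2 / 3 : ℝ) ≤ K ^ (2 / 3 : ℝ) / 4 := by
      rw [← scaled_eq hK0 hν]
      have : 0 < (ν : ℝ) ^ (2 / 3 : ℝ) := by positivity
      gcongr
      linarith
    linarith

theorem const_eq : (π / (2 * betaStar)) ^ (2 / 3 : ℝ) / 4 = (π / (16 * betaStar)) ^ (2 / 3 : ℝ) := by
  have hb := betaStar_pos
  have hπ := pi_pos
  have h1 : π / (16 * betaStar) = π / (2 * betaStar) / 8 := by field_simp; norm_num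
  have h2 : (8 : ℝ) ^ (2 / 3 : ℝ) = 4 := by
    have : (8 : ℝ) = 2 ^ (3 : ℝ) := by norm_num
    rw [this, ← Real.rpow_mul (by norm_num)]
    norm_num
  rw [h1, Real.div_rpow (x := π / (2 * betaStar)) (y := 8) (by positivity) (by norm_num), h2]

theorem cube_rpow {x : ℝ} (hx : 0 ≤ x) : (x ^ (2 / 3 : ℝ)) ^ 3 = x ^ 2 := by
  rw [← Real.rpow_natCast, ← Real.rpow_mul hx]
  norm_num

theorem const_gt : 0.388 < (π / (16 * betaStar)) ^ (2 / 3 : ℝ) := by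
  have hb := betaStar_pos
  have hb2 := betaStar_le
  have hπ := pi_gt_d6
  have hx : 3.141592 / (16 * (8124 / 10000)) ≤ π / (16 * betaStar) := by
    gcongr
  have hx0 : 0 ≤ π / (16 * betaStar) := le_trans (by norm_num) hx
  apply lt_of_pow_lt_pow_left₀ 3 (by positivity)
  rw [cube_rpow hx0]
  have h1 : (3.141592 / (16 * (8124 / 10000)) : ℝ) ^ 2 ≤ (π / (16 * betaStar)) ^ 2 :=
    pow_le_pow_left₀ (by norm_num) hx 2
  refine lt_of_lt_of_le ?_ h1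
  norm_num

theorem const_lt : (π / (16 * betaStar)) ^ (2 / 3 : ℝ) < 0.3886 := by
  have hb := betaStar_pos
  have hb2 := betaStar_ge
  have hπ := pi_lt_d4
  have hπ0 := pi_pos
  have hx : π / (16 * betaStar) ≤ π ^ 3 / 128 := by
    have : π / (16 * betaStar) ≤ π / (16 * (8 / π ^ 2)) := by gcongr
    refine le_trans this (le_of_eq ?_)
    field_simp
    norm_num
  have hx2 : π ^ 3 / 128 ≤ 3.1416 ^ 3 / 128 := by gcongr
  have hx0 : 0 ≤ π / (16 * betaStar) := by positivity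
  apply lt_of_pow_lt_pow_left₀ 3 (by norm_num)
  rw [cube_rpow hx0]
  have h1 : (π / (16 * betaStar)) ^ 2 ≤ (3.1416 ^ 3 / 128) ^ 2 :=
    pow_le_pow_left₀ hx0 (le_trans hx hx2) 2
  refine lt_of_le_of_lt h1 ?_
  norm_num

theorem main_limit :
    Filter.Tendsto (fun ν : ℕ => (cConst ν - 1 / 4) * (ν : ℝ) ^ (2 / 3 : ℝ)) Filter.atTop
      (nhds ((π / (16 * betaStar)) ^ (2 / 3 : ℝ))) ∧
    0.388 < (π / (16 * betaStar)) ^ (2 / 3 : ℝ) ∧
    (π / (16 * betaStar)) ^ (2 / 3 : ℝ) < 0.3886 := by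
  refine ⟨?_, const_gt, const_lt⟩
  rw [← const_eq]
  exact main_tendsto

end Pool.Agent.LibHelper37.Mac
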